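import Pool.Agent.H751R2.LHY.Defs

open MeasureTheory UnitAddTorus
open scoped ComplexConjugate ENNReal

namespace Pool.Agent.H751R2.LHY

noncomputable section

/-! ## I : integrals of pair functions  (file Int.lean) -/

theorem mp_diff {N : ℕ} {i j : Fin N} (hij : i ≠ j) :
    MeasurePreserving (fun x : Cfg N => pos x i - pos x j) volume volume := by
  sorry

theorem int_pair {N : ℕ} {i j : Fin N} (hij : i ≠ j) (g : T3 → ℂ) (hg : Integrable g)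
    (M : Fin N → Mom) :
    ∫ x : Cfg N, g (pos x i - pos x j) * mFourier (unc M) x =
      if (∀ l, l ≠ i → l ≠ j → M l = 0) ∧ M j = -M i then ∫ y, g y * mFourier (M i) y else 0 := by
  sorry

/-! ## A1, A2 : combinatorics  (file Comb.lean) -/

theorem pairS_le {N : ℕ} (B : Finset Mom) (h0 : (0 : Mom) ∈ B) (n : Mom) (hn : n ∈ B)
    (hn' : -n ∈ B) (hne : n ≠ 0) (a : (Fin N → Mom) → ℂ) :
    ‖pairS B a n‖ ^ 2 ≤ (N : ℝ) ^ 2 * (occ B a (-n) * (occ B a n + nrm B a)) := by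
  sorry

theorem pairS_zero_ge {N : ℕ} (B : Finset Mom) (a : (Fin N → Mom) → ℂ) :
    (N : ℝ) * (N - 1) * nrm B a - 2 * (N - 1) * ∑ n ∈ B.erase 0, occ B a n ≤
      (pairS B a 0).re := by
  sorry

/-! ## A3 : lower bound for the potential energy  (file Pot.lean) -/

theorem pot_ge {N : ℕ} {W : T3 → ℝ} (hW : Pot W) {B0 : Finset Mom} (hB0 : Sym B0)
    (c : Mom → ℝ) (a : (Fin N → Mom) → ℂ) :
    ∑ n ∈ insert 0 B0, gh W B0 c n * (pairS (insert 0 B0) a n).re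
      - (1 / 2) * (∫ y, W y * (1 - wf B0 c y) ^ 2) * (pairS (insert 0 B0) a 0).re
      ≤ potF (insert 0 B0) a W := by
  sorry

/-! ## H : the scattering solution  (file Scat.lean) -/

theorem exists_scat {W : T3 → ℝ} (hW : Pot W) {q μ : ℝ} (hq : 0 < q) (hμ : 0 < μ)
    {B0 : Finset Mom} (hB0 : Sym B0) : ∃ c, Scat W q μ B0 c := by
  sorry

theorem scat_Q {W : T3 → ℝ} (hW : Pot W) {q μ : ℝ} {B0 : Finset Mom} {c : Mom → ℝ}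
    (hc : Scat W q μ B0 c) : gh W B0 c 0 = Qf W q μ B0 c := by
  sorry

theorem scat_min {W : T3 → ℝ} (hW : Pot W) {q μ : ℝ} (hq : 0 < q) (hμ : 0 < μ)
    {B0 : Finset Mom} {c : Mom → ℝ} (hc : Scat W q μ B0 c) (c' : Mom → ℝ) :
    Qf W q μ B0 c ≤ Qf W q μ B0 c' := by
  sorry

theorem gh_le {W : T3 → ℝ} (hW : Pot W) {q μ : ℝ} (hq : 0 < q) (hμ : 0 < μ)
    {B0 : Finset Mom} {c : Mom → ℝ} (hc : Scat W q μ B0 c) (n : Mom) :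
    |gh W B0 c n| ≤ ∫ y, W y := by
  sorry

/-- closeness of `gh n` and `gh 0` -/
theorem gh_near {W : T3 → ℝ} (hW : Pot W) {q μ : ℝ} (hq : 0 < q) (hμ : 0 < μ)
    {B0 : Finset Mom} {c : Mom → ℝ} (hc : Scat W q μ B0 c) (n : Mom)
    (hn : 8 * ∫ y, W y * (1 - cs n y) ≤ gh W B0 c 0) :
    gh W B0 c 0 / 2 ≤ gh W B0 c n := by
  sorry

/-! ## A4 : one-mode inequality  (file Mode.lean) -/

theorem mode_sum {B0 : Finset Mom} (hB0 : Sym B0) (A b o : Mom → ℝ) (S : ℝ) (hS : 0 ≤ S)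
    (hA : ∀ n ∈ B0, 0 < A n) (hAs : ∀ n ∈ B0, A (-n) = A n)
    (hb : ∀ n ∈ B0, 0 ≤ b n) (hbs : ∀ n ∈ B0, b (-n) = b n)
    (hbA : ∀ n ∈ B0, b n ≤ A n / 2) (ho : ∀ n ∈ B0, 0 ≤ o n) :
    -(S * ∑ n ∈ B0, (b n ^ 2 / (4 * A n)) * (1 + (b n / A n) ^ 2)) ≤
      ∑ n ∈ B0, (A n * o n - b n * Real.sqrt (o (-n) * (o n + S))) := by
  sorry

/-! ## ThmA -/

theorem lowerA {N : ℕ} {W : T3 → ℝ} (hW : Pot W) {q μ : ℝ} (hq : 0 < q) (hμ : 0 < μ)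
    {B0 : Finset Mom} (hB0 : Sym B0) {c : Mom → ℝ} (hc : Scat W q μ B0 c)
    (L A : Mom → ℝ) (Γ : ℝ)
    (hΓ : Γ = gh W B0 c 0 + ∑ n ∈ B0, (2 * (q * sq n) + 2 * μ) * c n ^ 2)
    (hA : ∀ n ∈ B0, 0 < A n) (hAs : ∀ n ∈ B0, A (-n) = A n)
    (hAL : ∀ n ∈ B0, A n ≤ q * sq n + L n - Γ * N)
    (hAg : ∀ n ∈ B0, N * |gh W B0 c n| ≤ A n / 2)
    (a : (Fin N → Mom) → ℂ) :
    nrm (insert 0 B0) a * ((1 / 2) * Γ * ((N : ℝ) ^ 2 - N)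
      - ∑ n ∈ B0, ((N * |gh W B0 c n|) ^ 2 / (4 * A n)) * (1 + ((N * |gh W B0 c n|) / A n) ^ 2))
      ≤ kinF (insert 0 B0) a q + potF (insert 0 B0) a W
        + ∑ n ∈ B0, L n * occ (insert 0 B0) a n := by
  sorry

/-! ## ThmB : the trial state -/

theorem upperB (N : ℕ) {W : T3 → ℝ} (hW : Pot W) {q : ℝ} (hq : 0 < q)
    {B0 : Finset Mom} (hB0 : Sym B0) (c : Mom → ℝ) (hc : ∀ n, c (-n) = c n) :
    ∃ a : (Fin N → Mom) → ℂ, 0 < nrm (insert 0 B0) a ∧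
      kinF (insert 0 B0) a q + potF (insert 0 B0) a W ≤
        ((N : ℝ) ^ 2 / 2) * ((∫ y, W y * (1 - wf B0 c y) ^ 2) + 2 * ∑ n ∈ B0, (q * sq n) * c n ^ 2
          + 4 * (∫ y, W y) * (N * ∑ n ∈ B0, c n ^ 2) * (1 + N * ∑ n ∈ B0, c n ^ 2))
          * nrm (insert 0 B0) a := by
  sorry

/-! ## L : general functions -/

section L
variable {N : ℕ}

theorem nrm_tendsto {ψ : Cfg N → ℂ} (hψ : MemLp ψ 2) :
    Filter.Tendsto (fun R : ℕ => nrm (boxM R) (coef ψ)) Filter.atTop (nhds (∫ x, ‖ψ x‖ ^ 2)) := by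
  sorry

theorem kinF_tendsto {q : ℝ} (hq : 0 < q) {ψ : Cfg N → ℂ} (hψ : MemLp ψ 2)
    (hk : kinE q ψ ≠ ⊤) :
    Filter.Tendsto (fun R : ℕ => kinF (boxM R) (coef ψ) q) Filter.atTop
      (nhds (kinE q ψ).toReal) := by
  sorry

theorem potF_tendsto {W : T3 → ℝ} (hW : Pot W) (hWm : Measurable W) {C : ℝ} (hC : ∀ y, W y ≤ C)
    {ψ : Cfg N → ℂ} (hψ : MemLp ψ 2) :
    Filter.Tendsto (fun R : ℕ => potF (boxM R) (coef ψ) W) Filter.atTop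
      (nhds (potE (fun y => ENNReal.ofReal (W y)) ψ).toReal) := by
  sorry

theorem occ_le_occE {ψ : Cfg N → ℂ} (hψ : MemLp ψ 2) (P : Mom → Prop) [DecidablePred P]
    (R : ℕ) :
    ∑ n ∈ (boxM R).filter P, occ (boxM R) (coef ψ) n ≤ (occE ψ P).toReal := by
  sorry

/-- energies of trigonometric polynomials -/
theorem trig_memLp (B : Finset Mom) (a : (Fin N → Mom) → ℂ) : MemLp (trig B a) 2 := by
  sorry

theorem trig_norm (B : Finset Mom) (a : (Fin N → Mom) → ℂ) :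
    ∫ x, ‖trig B a x‖ ^ 2 = nrm B a := by
  sorry

theorem trig_kinE (B : Finset Mom) (a : (Fin N → Mom) → ℂ) {q : ℝ} (hq : 0 < q) :
    kinE q (trig B a) = ENNReal.ofReal (kinF B a q) := by
  sorry

theorem trig_potE (B : Finset Mom) (a : (Fin N → Mom) → ℂ) {W : T3 → ℝ} (hW : Pot W)
    (hWm : Measurable W) :
    potE (fun y => ENNReal.ofReal (W y)) (trig B a) = ENNReal.ofReal (potF B a W) := by
  sorry

end L

/-! ## P : periodisation -/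

section P
variable {v : (Fin 3 → ℝ) → ℝ}

theorem perPot_meas (hv : Measurable v) (ℓ : ℝ) : Measurable (perPot v ℓ) := by
  sorry

theorem perPot_even (he : ∀ x, v (-x) = v x) (ℓ : ℝ) (y : T3) :
    perPot v ℓ (-y) = perPot v ℓ y := by
  sorry

theorem perPot_lint (hv : Measurable v) {ℓ : ℝ} (hℓ : 0 < ℓ) (f : T3 → ℝ≥0∞)
    (hf : Measurable f) :
    ∫⁻ y, perPot v ℓ y * f y =
      ENNReal.ofReal (1 / ℓ ^ 3) * ∫⁻ x : Fin 3 → ℝ, ENNReal.ofReal (v x) *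
        f (fun a => ((x a / ℓ : ℝ) : UnitAddCircle)) := by
  sorry

theorem perPot_le {C r : ℝ} (hC : ∀ x, v x ≤ C) (hr : ∀ x, v x ≠ 0 → ∀ a, |x a| ≤ r)
    {ℓ : ℝ} (hℓ : 2 * r < ℓ) (hℓ0 : 0 < ℓ) (y : T3) : perPot v ℓ y ≤ ENNReal.ofReal C := by
  sorry

end P

/-! ## G : lower bound for the scattering energy, lattice sums -/

theorem low_sum (R : ℕ) (F : Finset Mom) (hF : F ⊆ (boxM R).erase 0) :
    ∑ n ∈ F, 1 / sq n ≤ 26 * R := by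
  sorry

theorem tail_sum : ∃ C : ℝ, 0 < C ∧ ∀ (t : ℝ), 1 ≤ t → ∀ F : Finset Mom,
    (∀ n ∈ F, t ^ 2 < sq n) → ∑ n ∈ F, 1 / sq n ^ 2 ≤ C / t := by
  sorry

theorem count_ge (t : ℝ) (ht : 2 ≤ t) (R : ℕ) (hR : t ≤ R) :
    t ^ 3 / 27 ≤ ((((boxM R).erase 0).filter (fun n => sq n ≤ t ^ 2)).card : ℝ) := by
  sorry

/-- abstract lower bound: `u ≤ W` bounded by `U`, side length `ℓ`,  `q = τ (2π/ℓ)²` -/
theorem Q_lower {W u : T3 → ℝ} (hW : Pot W) (hu : Pot u) (hum : Measurable u)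
    (huW : ∀ y, u y ≤ W y) {U A τ ℓ : ℝ}
    (hτ : 0 < τ) (hℓ : 1 ≤ ℓ) (hA : 0 < A) (hUb : ∀ y, u y ≤ U) (huI : ∫ y, u y = A / ℓ ^ 3)
    {μ : ℝ} (hμ : 0 ≤ μ) {B0 : Finset Mom} (hB0 : Sym B0) (c : Mom → ℝ) :
    (A ^ 2 / (A + (7 * A ^ 2 + U * A) / τ)) / ℓ ^ 3 ≤ Qf W (τ * (2 * Real.pi / ℓ) ^ 2) μ B0 c := by
  sorry

/-! ## C : clipping -/

theorem clip {W : T3 → ℝ} (hW : Pot W) (hWm : Measurable W) {q μ : ℝ} (hq : 0 < q) (hμ : 0 < μ)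
    {ε : ℝ} (hε : 0 < ε) :
    ∃ K0 : ℝ, ∀ K, K0 ≤ K → ∀ B0 : Finset Mom, Sym B0 → ∀ c : Mom → ℝ, (∀ n, c (-n) = c n) →
      Qf (fun y => min (W y) K) q μ B0 c ≤ (∫ y, W y) + 1 →
      ∃ B1 : Finset Mom, Sym B1 ∧ ∃ c1 : Mom → ℝ, (∀ n, c1 (-n) = c1 n) ∧
        Qf W q μ B1 c1 ≤ Qf (fun y => min (W y) K) q μ B0 c + ε := by
  sorry

end

end Pool.Agent.H751R2.LHY
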