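import Pool.Agent.H751R2.LHY.Defs

open MeasureTheory UnitAddTorus
open scoped ComplexConjugate ENNReal

namespace Pool.Agent.H751R2.LHY

noncomputable section

/-! ## S : sign averages  (file Sign.lean) -/
section S
variable {K : Type*} [Fintype K] [DecidableEq K]

theorem zed_pos (h : K → ℝ) (hh : ∀ κ, 0 ≤ h κ) (n : ℕ) : 0 < ∑ η : K → Bool, zed h η ^ n := by
  sorry

theorem zed_mono (h : K → ℝ) (hh : ∀ κ, 0 ≤ h κ) {m n : ℕ} (hmn : m ≤ n) :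
    ∑ η : K → Bool, zed h η ^ m ≤ ∑ η : K → Bool, zed h η ^ n := by
  sorry

theorem zed_one (h : K → ℝ) (hh : ∀ κ, 0 ≤ h κ) (n : ℕ) (κ : K) :
    0 ≤ ∑ η : K → Bool, sg (η κ) * zed h η ^ n ∧
    ∑ η : K → Bool, sg (η κ) * zed h η ^ n ≤ n * h κ * ∑ η : K → Bool, zed h η ^ n := by
  sorry

theorem zed_two (h : K → ℝ) (hh : ∀ κ, 0 ≤ h κ) (n : ℕ) {κ κ' : K} (hne : κ ≠ κ') :
    0 ≤ ∑ η : K → Bool, sg (η κ) * sg (η κ') * zed h η ^ n ∧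
    ∑ η : K → Bool, sg (η κ) * sg (η κ') * zed h η ^ n ≤
      (n * h κ) * (n * h κ') * ∑ η : K → Bool, zed h η ^ n := by
  sorry

/-- fourth moment identity for random signs -/
theorem four (α β γ δ : K → ℂ) :
    ∑ ξ : K → Bool, (1 + ∑ κ, α κ * (sg (ξ κ) : ℂ)) * (1 + ∑ κ, β κ * (sg (ξ κ) : ℂ)) *
      (1 + ∑ κ, γ κ * (sg (ξ κ) : ℂ)) * (1 + ∑ κ, δ κ * (sg (ξ κ) : ℂ)) =
    2 ^ Fintype.card K * (1 + (∑ κ, α κ * β κ) + (∑ κ, α κ * γ κ) + (∑ κ, α κ * δ κ)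
      + (∑ κ, β κ * γ κ) + (∑ κ, β κ * δ κ) + (∑ κ, γ κ * δ κ)
      + (∑ κ, α κ * β κ) * (∑ κ, γ κ * δ κ) + (∑ κ, α κ * γ κ) * (∑ κ, β κ * δ κ)
      + (∑ κ, α κ * δ κ) * (∑ κ, β κ * γ κ) - 2 * ∑ κ, α κ * β κ * γ κ * δ κ) := by
  sorry

end S

/-! ## Cas : Hartley functions (file Cas.lean) -/

theorem cas_sq_le (n : Mom) (y : T3) : cas n y ^ 2 ≤ 2 := by
  sorry

theorem cas_continuous (n : Mom) : Continuous (cas n) := by
  sorry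

theorem int_cas_sq {n : Mom} (hn : n ≠ 0) : ∫ y, cas n y ^ 2 = 1 := by
  sorry

theorem sum_cas {B0 : Finset Mom} (hB0 : Sym B0) {c : Mom → ℝ} (hc : ∀ n, c (-n) = c n)
    (x y : T3) : ∑ n ∈ B0, c n * (cas n x * cas n y) = wf B0 c (x - y) := by
  sorry

theorem sr_sq (c : Mom → ℝ) (n : Mom) : sr c n ^ 2 = -(c n : ℂ) := by
  sorry

theorem sr_norm (c : Mom → ℝ) (n : Mom) : conj (sr c n) * sr c n = (|c n| : ℝ) := by
  sorry

/-! ## Tri : the trial state  (file Trial.lean) -/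

/-- coefficients of the trial state: norm, kinetic energy and the values of the function -/
theorem trial_exists (N : ℕ) {q : ℝ} {B0 : Finset Mom} (hB0 : Sym B0) {c : Mom → ℝ}
    (hc : ∀ n, c (-n) = c n) :
    ∃ a : (Fin N → Mom) → ℂ,
      (∀ x : Cfg N, trig (insert 0 B0) a x = ∑ ξ : B0 → Bool, ∏ i, uf B0 c ξ (pos x i)) ∧
      nrm (insert 0 B0) a = 2 ^ Fintype.card B0 *
        ∑ η : B0 → Bool, zed (fun n : B0 => |c n|) η ^ N ∧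
      kinF (insert 0 B0) a q = 2 ^ Fintype.card B0 * (N * ∑ n : B0, (q * sq n) * |c n| *
        ∑ η : B0 → Bool, sg (η n) * zed (fun n : B0 => |c n|) η ^ (N - 1)) := by
  sorry

/-! ## PF : potential energy of the trial state  (file TrialPot.lean) -/

theorem trial_pot (N : ℕ) {W : T3 → ℝ} (hW : Pot W) {B0 : Finset Mom} (hB0 : Sym B0)
    {c : Mom → ℝ} (hc : ∀ n, c (-n) = c n) (a : (Fin N → Mom) → ℂ)
    (ha : ∀ x : Cfg N, trig (insert 0 B0) a x = ∑ ξ : B0 → Bool, ∏ i, uf B0 c ξ (pos x i)) :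
    (potF (insert 0 B0) a W : ℂ) = (1 / 2) * (N * (N - 1)) *
      ∑ ξ : B0 → Bool, ∑ ξ' : B0 → Bool,
        quad W (fun y => conj (uf B0 c ξ y) * uf B0 c ξ' y) *
          ((1 + ∑ n : B0, |c n| * (sg (ξ n) * sg (ξ' n)) : ℝ) : ℂ) ^ (N - 2) := by
  sorry

/-! ## QS : evaluation of the sign sums of `quad`  (file QuadSum.lean) -/

/-- `J n = ∫∫ W(x-y) (cas_n x + cas_n y)²` etc.; weight `g η` arbitrary -/
theorem quad_sum {W : T3 → ℝ} (hW : Pot W) {B0 : Finset Mom} (hB0 : Sym B0)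
    {c : Mom → ℝ} (hc : ∀ n, c (-n) = c n) (g : (B0 → Bool) → ℝ) :
    ∃ (J : B0 → ℝ) (J2 : B0 → B0 → ℝ),
      (∀ n, 0 ≤ J n ∧ J n ≤ 4 * ∫ y, W y) ∧ (∀ n n', n ≠ n' → J2 n n' ≤ 4 * ∫ y, W y) ∧
      (∑ ξ : B0 → Bool, ∑ ξ' : B0 → Bool,
        quad W (fun y => conj (uf B0 c ξ y) * uf B0 c ξ' y) *
          (g (fun n => ξ n == ξ' n) : ℂ)) =
      ((2 ^ Fintype.card B0 * ((∑ η, g η) * (∫ y, W y * (1 - wf B0 c y) ^ 2)
        + ∑ n : B0, |c n| * J n * (∑ η, sg (η n) * g η)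
        + ∑ n : B0, ∑ n' ∈ Finset.univ.erase n, |c n| * |c n'| * J2 n n' *
            (∑ η, sg (η n) * sg (η n') * g η)) : ℝ) : ℂ) := by
  sorry

end

end Pool.Agent.H751R2.LHY
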