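import Pool.Agent.H464R2.LHY.Int
import Pool.Agent.H46R2.LHY.Comb
import Pool.Agent.H464R2.LHY.PotGe
import Pool.Agent.H464R2.LHY.Scat
import Pool.Agent.H46R2.LHY.LowA
import Pool.Agent.H459R2.LHY.UpperB
import Pool.Agent.H728R2.LHY.Lim
import Pool.Agent.H728R2.LHY.Trig
import Pool.Agent.H51R2.LHY.Per
import Pool.Agent.H506R2.LHY.Lattice
import Pool.Agent.H51R2.LHY.QLow
import Pool.Agent.H44R2.LHY.Clip

open MeasureTheory UnitAddTorus
open scoped ComplexConjugate ENNReal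

namespace Pool.Agent.H751R2.LHY

noncomputable section

lemma cs_zero (y : T3) : cs 0 y = 1 := by
  simp [cs, mFourier_zero]

lemma cs_neg (n : Mom) (y : T3) : cs (-n) y = cs n y := by
  simp [cs, mFourier_neg]

lemma sq_neg (n : Mom) : sq (-n) = sq n := by
  simp [sq]

lemma gh_neg (W : T3 → ℝ) (B0 : Finset Mom) (c : Mom → ℝ) (n : Mom) :
    gh W B0 c (-n) = gh W B0 c n := by
  simp [gh, cs_neg]

lemma Qf_shift (W : T3 → ℝ) (q μ ν : ℝ) (B0 : Finset Mom) (c : Mom → ℝ) :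
    Qf W q ν B0 c = Qf W q μ B0 c - 2 * (μ - ν) * ∑ n ∈ B0, c n ^ 2 := by
  unfold Qf
  have : ∑ n ∈ B0, (2 * (q * sq n) + 2 * ν) * c n ^ 2 =
      ∑ n ∈ B0, (2 * (q * sq n) + 2 * μ) * c n ^ 2 - 2 * (μ - ν) * ∑ n ∈ B0, c n ^ 2 := by
    rw [Finset.mul_sum, ← Finset.sum_sub_distrib]
    exact Finset.sum_congr rfl (fun n _ => by ring)
  rw [this]; ring

lemma low_term {N g s κ c : ℝ} (hκ : 0 ≤ κ) (hs0 : 0 < s) (hN : 0 ≤ N)
    (hb0 : 0 ≤ N * g) (hb : N * g ≤ s) (hg2 : g ^ 2 = ((2 * κ + 2 * (5 * s)) * c) ^ 2) :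
    (N * g) ^ 2 / (4 * (κ + 5 * s)) * (1 + ((N * g) / (κ + 5 * s)) ^ 2) ≤
      (N ^ 2 / 2) * ((2 * κ + 2 * (5 * s)) * c ^ 2 + 0.4 * s * c ^ 2 + 0) := by
  have hden : 0 < 2 * κ + 2 * (5 * s) := by positivity
  have e1 : (N * g) ^ 2 / (4 * (κ + 5 * s)) =
      (N ^ 2 / 2) * ((2 * κ + 2 * (5 * s)) * c ^ 2) := by
    rw [mul_pow, hg2]
    field_simp
    ring
  have e2 : ((N * g) / (κ + 5 * s)) ^ 2 * (2 * κ + 2 * (5 * s)) ≤ 0.4 * s := by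
    rw [div_pow, div_mul_eq_mul_div, div_le_iff₀ (by positivity)]
    have h1 : (N * g) ^ 2 ≤ s ^ 2 := pow_le_pow_left₀ hb0 hb 2
    have h2 : (N * g) ^ 2 * (2 * κ + 2 * (5 * s)) ≤ s ^ 2 * (2 * κ + 2 * (5 * s)) :=
      mul_le_mul_of_nonneg_right h1 hden.le
    refine h2.trans ?_
    nlinarith [mul_nonneg hκ hs0.le, mul_nonneg (mul_nonneg hκ hs0.le) hs0.le,
      mul_nonneg (mul_nonneg hκ hκ) hs0.le, mul_pos hs0 hs0]
  rw [e1]
  have hc2 : 0 ≤ c ^ 2 := sq_nonneg _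
  have hN2 : 0 ≤ N ^ 2 / 2 := by positivity
  calc (N ^ 2 / 2) * ((2 * κ + 2 * (5 * s)) * c ^ 2) *
        (1 + ((N * g) / (κ + 5 * s)) ^ 2)
      = (N ^ 2 / 2) * ((2 * κ + 2 * (5 * s)) * c ^ 2
        + (((N * g) / (κ + 5 * s)) ^ 2 * (2 * κ + 2 * (5 * s))) * c ^ 2) := by ring
    _ ≤ (N ^ 2 / 2) * ((2 * κ + 2 * (5 * s)) * c ^ 2 + 0.4 * s * c ^ 2 + 0) := by
        apply mul_le_mul_of_nonneg_left _ hN2
        have := mul_le_mul_of_nonneg_right e2 hc2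
        linarith

lemma high_term {N g s κ c D I : ℝ} (hs0 : 0 < s) (hN : 0 ≤ N) (hI : 0 < I)
    (hg0 : 0 ≤ g) (hgI : g ≤ I)
    (hb : N * g ≤ s) (hg2 : g ^ 2 = ((2 * κ + 2 * (5 * s)) * c) ^ 2)
    (hκ4 : 4 * s ≤ κ) (hD : κ - D ≤ 2 * s) (hD1 : D ≤ κ) :
    (N * g) ^ 2 / (4 * D) * (1 + ((N * g) / D) ^ 2) ≤
      (N ^ 2 / 2) * ((2 * κ + 2 * (5 * s)) * c ^ 2 + 0.4 * s * c ^ 2
        + 8 * s * I ^ 2 * (1 / κ ^ 2)) := by
  have hκp : 0 < κ := by linarith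
  have hAp : κ / 2 ≤ D := by linarith
  have hAp0 : 0 < D := by linarith
  have hb0 : 0 ≤ N * g := by positivity
  have hden : 0 < 2 * κ + 2 * (5 * s) := by positivity
  have hgI2 : g ^ 2 ≤ I ^ 2 := pow_le_pow_left₀ hg0 hgI 2
  have e1 : (N * g) ^ 2 / (4 * D) ≤
      (N ^ 2 / 2) * ((2 * κ + 2 * (5 * s)) * c ^ 2
        + 7 * s * I ^ 2 * (1 / κ ^ 2)) := by
    have hsplit : (N * g) ^ 2 / (4 * D) = (N ^ 2 / 2) * ((2 * κ + 2 * (5 * s)) * c ^ 2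
        + g ^ 2 * (10 * s + 2 * (κ - D)) / ((2 * D) * (2 * κ + 2 * (5 * s)))) := by
      have : (2 * κ + 2 * (5 * s)) * c ^ 2 = g ^ 2 / (2 * κ + 2 * (5 * s)) := by
        rw [hg2]; field_simp
      rw [this]
      field_simp
      ring
    rw [hsplit]
    apply mul_le_mul_of_nonneg_left _ (by positivity)
    have : g ^ 2 * (10 * s + 2 * (κ - D)) / ((2 * D) * (2 * κ + 2 * (5 * s))) ≤
        7 * s * I ^ 2 * (1 / κ ^ 2) := by
      rw [div_le_iff₀ (by positivity), mul_one_div, div_mul_eq_mul_div, le_div_iff₀ (by positivity)]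
      have h14 : 10 * s + 2 * (κ - D) ≤ 14 * s := by linarith
      have h140 : 0 ≤ 10 * s + 2 * (κ - D) := by linarith
      have hx : κ ^ 2 * 2 ≤ (2 * D) * (2 * κ + 2 * (5 * s)) := by
        have h1 : κ ≤ 2 * D := by linarith
        have h2 : 2 * κ ≤ 2 * κ + 2 * (5 * s) := by linarith
        calc κ ^ 2 * 2 = κ * (2 * κ) := by ring
          _ ≤ (2 * D) * (2 * κ + 2 * (5 * s)) := mul_le_mul h1 h2 (by positivity) (by positivity)
      calc g ^ 2 * (10 * s + 2 * (κ - D)) * κ ^ 2 ≤ I ^ 2 * (14 * s) * κ ^ 2 := by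
            apply mul_le_mul_of_nonneg_right _ (by positivity)
            exact mul_le_mul hgI2 h14 h140 (by positivity)
        _ = 7 * s * I ^ 2 * (κ ^ 2 * 2) := by ring
        _ ≤ 7 * s * I ^ 2 * ((2 * D) * (2 * κ + 2 * (5 * s))) :=
            mul_le_mul_of_nonneg_left hx (by positivity)
    linarith
  have e2 : (N * g) ^ 2 / (4 * D) * ((N * g) / D) ^ 2 ≤
      (N ^ 2 / 2) * (s * I ^ 2 * (1 / κ ^ 2)) := by
    have h1 : (N * g) ^ 2 / (4 * D) ≤ N ^ 2 * I ^ 2 / (2 * κ) := by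
      rw [div_le_div_iff₀ (by positivity) (by positivity)]
      have : (N * g) ^ 2 ≤ N ^ 2 * I ^ 2 := by
        rw [mul_pow]; exact mul_le_mul_of_nonneg_left hgI2 (by positivity)
      calc (N * g) ^ 2 * (2 * κ) ≤ (N ^ 2 * I ^ 2) * (2 * κ) :=
            mul_le_mul_of_nonneg_right this (by positivity)
        _ ≤ (N ^ 2 * I ^ 2) * (4 * D) := by
            apply mul_le_mul_of_nonneg_left _ (by positivity)
            linarith
    have h2 : ((N * g) / D) ^ 2 ≤ s / κ := by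
      rw [div_pow, div_le_div_iff₀ (by positivity) hκp]
      have h1 : (N * g) ^ 2 ≤ s ^ 2 := pow_le_pow_left₀ hb0 hb 2
      have h3 : κ * s ≤ D ^ 2 := by nlinarith
      calc (N * g) ^ 2 * κ ≤ s ^ 2 * κ := mul_le_mul_of_nonneg_right h1 hκp.le
        _ = s * (κ * s) := by ring
        _ ≤ s * D ^ 2 := mul_le_mul_of_nonneg_left h3 hs0.le
    calc (N * g) ^ 2 / (4 * D) * ((N * g) / D) ^ 2
        ≤ (N ^ 2 * I ^ 2 / (2 * κ)) * (s / κ) :=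
          mul_le_mul h1 h2 (by positivity) (by positivity)
      _ = (N ^ 2 / 2) * (s * I ^ 2 * (1 / κ ^ 2)) := by
          field_simp
  have hc2 : 0 ≤ (N ^ 2 / 2) * (0.4 * s * c ^ 2) := by positivity
  calc (N * g) ^ 2 / (4 * D) * (1 + ((N * g) / D) ^ 2)
      = (N * g) ^ 2 / (4 * D) + (N * g) ^ 2 / (4 * D) * ((N * g) / D) ^ 2 := by ring
    _ ≤ _ := by linarith

lemma Xbound {W : T3 → ℝ} (hW : Pot W) {q : ℝ} (hq : 0 < q) {N : ℕ} {I s L T : ℝ}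
    (hN : 1 ≤ N) (hI : ∫ y, W y ≤ I) (hI0 : 0 < I) (hs : s = N * I) (hL : 4 * s ≤ L)
    {B0 : Finset Mom} {cA cB : Mom → ℝ}
    (hA : Scat W q (5 * s) B0 cA) (hB : Scat W q (3 * s) B0 cB)
    (hT : ∑ n ∈ B0.filter (fun n => ¬ q * sq n ≤ L), 1 / (q * sq n) ^ 2 ≤ T)
    (Γ : ℝ) (hΓ : Γ = gh W B0 cA 0 + ∑ n ∈ B0, (2 * (q * sq n) + 2 * (5 * s)) * cA n ^ 2)
    (A : Mom → ℝ) (hAdef : ∀ n, A n = if q * sq n ≤ L then q * sq n + 5 * s
      else q * sq n - Γ * N) :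
    ((N : ℝ) ^ 2 / 2) * (gh W B0 cB 0 + s * (3.6 * ∑ n ∈ B0, cA n ^ 2 - 8 * I ^ 2 * T)) - s ≤
      (1 / 2) * Γ * ((N : ℝ) ^ 2 - N)
      - ∑ n ∈ B0, ((N * |gh W B0 cA n|) ^ 2 / (4 * A n)) *
        (1 + ((N * |gh W B0 cA n|) / A n) ^ 2) ∧ 0 ≤ Γ ∧ Γ * N ≤ 2 * s := by
  have hNr : (1 : ℝ) ≤ N := by exact_mod_cast hN
  have hs0 : 0 < s := by rw [hs]; positivity
  have h5 : 0 < 5 * s := by positivity
  have h3 : 0 < 3 * s := by positivity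
  set S2 := ∑ n ∈ B0, (2 * (q * sq n) + 2 * (5 * s)) * cA n ^ 2 with hS2
  have hS2n : 0 ≤ S2 := Finset.sum_nonneg (fun n _ => by
    have := sq_nonneg' n; positivity)
  have hWn : 0 ≤ ∫ y, W y * (1 - wf B0 cA y) ^ 2 :=
    integral_nonneg (fun y => mul_nonneg (hW.nonneg y) (sq_nonneg _))
  have hQA := scat_Q hW hA
  have hQA' : gh W B0 cA 0 = (∫ y, W y * (1 - wf B0 cA y) ^ 2) + S2 := by
    rw [hQA]; rfl
  have hG0 : 0 ≤ gh W B0 cA 0 := by rw [hQA']; positivity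
  have hGI : gh W B0 cA 0 ≤ I := (le_abs_self _).trans ((gh_le hW hq h5 hA 0).trans hI)
  have hΓ0 : 0 ≤ Γ := by rw [hΓ]; positivity
  have hΓN0 : 0 ≤ Γ * N := by positivity
  have hΓN : Γ * N ≤ 2 * s := by
    have : Γ ≤ 2 * I := by rw [hΓ]; linarith
    rw [hs]; nlinarith
  refine ⟨?_, hΓ0, hΓN⟩
  have habs : ∀ n, |gh W B0 cA n| ≤ I := fun n => (gh_le hW hq h5 hA n).trans hI
  -- per-mode bound
  have key : ∀ n ∈ B0, ((N * |gh W B0 cA n|) ^ 2 / (4 * A n)) *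
        (1 + ((N * |gh W B0 cA n|) / A n) ^ 2) ≤
      ((N : ℝ) ^ 2 / 2) * ((2 * (q * sq n) + 2 * (5 * s)) * cA n ^ 2 + 0.4 * s * cA n ^ 2
        + (if q * sq n ≤ L then 0 else 8 * s * I ^ 2 * (1 / (q * sq n) ^ 2))) := by
    intro n hn
    have hκ : 0 ≤ q * sq n := mul_nonneg hq.le (sq_nonneg' n)
    have hg := hA.eq n hn
    have hg0 : 0 ≤ |gh W B0 cA n| := abs_nonneg _
    have hgI : |gh W B0 cA n| ≤ I := habs n
    have hg2 : |gh W B0 cA n| ^ 2 = ((2 * (q * sq n) + 2 * (5 * s)) * cA n) ^ 2 := by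
      rw [sq_abs, hg]
    have hb : N * |gh W B0 cA n| ≤ s := by rw [hs]; nlinarith
    have hb0 : 0 ≤ N * |gh W B0 cA n| := by positivity
    rw [hAdef n]
    split_ifs with hlow
    · exact low_term hκ hs0 (by positivity) hb0 hb hg2
    · have hκL : L < q * sq n := lt_of_not_ge hlow
      exact high_term hs0 (by positivity) hI0 hg0 hgI hb hg2 (by linarith) (by linarith)
        (by linarith)
  have hsum := Finset.sum_le_sum key
  rw [← Finset.mul_sum, Finset.sum_add_distrib, Finset.sum_add_distrib, ← hS2,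
    ← Finset.mul_sum] at hsum
  have hT' : ∑ n ∈ B0, (if q * sq n ≤ L then (0 : ℝ) else 8 * s * I ^ 2 * (1 / (q * sq n) ^ 2))
      ≤ 8 * s * I ^ 2 * T := by
    have : ∑ n ∈ B0, (if q * sq n ≤ L then (0 : ℝ) else 8 * s * I ^ 2 * (1 / (q * sq n) ^ 2))
        = 8 * s * I ^ 2 * ∑ n ∈ B0.filter (fun n => ¬ q * sq n ≤ L), 1 / (q * sq n) ^ 2 := by
      rw [Finset.mul_sum, Finset.sum_filter]
      refine Finset.sum_congr rfl (fun n _ => ?_)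
      by_cases h : q * sq n ≤ L <;> simp [h]
    rw [this]
    exact mul_le_mul_of_nonneg_left hT (by positivity)
  have hQB : gh W B0 cB 0 ≤ gh W B0 cA 0 - 4 * s * ∑ n ∈ B0, cA n ^ 2 := by
    rw [scat_Q hW hB, hQA]
    have h1 := scat_min hW hq h3 hB cA
    rw [Qf_shift W q (5 * s) (3 * s) B0 cA] at h1
    linarith
  have hN2 : 0 < (N : ℝ) ^ 2 / 2 := by positivity
  have hfin := mul_le_mul_of_nonneg_left (add_le_add_right hT'
    (S2 + 0.4 * s * ∑ n ∈ B0, cA n ^ 2)) hN2.le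
  have hQB' := mul_le_mul_of_nonneg_left hQB hN2.le
  have hsum2 := hsum.trans hfin
  set X := ∑ n ∈ B0, ((N * |gh W B0 cA n|) ^ 2 / (4 * A n)) *
        (1 + ((N * |gh W B0 cA n|) / A n) ^ 2)
  set ω := ∑ n ∈ B0, cA n ^ 2
  have e : (1 / 2) * Γ * ((N : ℝ) ^ 2 - N) = ((N : ℝ) ^ 2 / 2) * (gh W B0 cA 0 + S2)
      - (1 / 2) * (Γ * N) := by rw [hΓ]; ring
  rw [e]
  linarith

end

end Pool.Agent.H751R2.LHY
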