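import Pool.Agent.H751R2.LHY.Core

open MeasureTheory UnitAddTorus
open scoped ComplexConjugate ENNReal

namespace Pool.Agent.H751R2.LHY

noncomputable section

section scale
variable {N : ℕ} (B : Finset Mom) (a : (Fin N → Mom) → ℂ) (t : ℝ)

lemma trig_scale (x : Cfg N) : trig B (fun M => (t : ℂ) * a M) x = t * trig B a x := by
  simp [trig, Finset.mul_sum, mul_assoc]

lemma nrm_scale : nrm B (fun M => (t : ℂ) * a M) = t ^ 2 * nrm B a := by
  simp [nrm, Finset.mul_sum, mul_pow]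

lemma kinF_scale (q : ℝ) : kinF B (fun M => (t : ℂ) * a M) q = t ^ 2 * kinF B a q := by
  simp only [kinF]
  rw [Finset.mul_sum]
  refine Finset.sum_congr rfl (fun M _ => ?_)
  rw [norm_mul, Complex.norm_real, mul_pow, Real.norm_eq_abs, sq_abs]
  ring

lemma potF_scale (W : T3 → ℝ) : potF B (fun M => (t : ℂ) * a M) W = t ^ 2 * potF B a W := by
  simp only [potF, trig_scale, norm_mul, Complex.norm_real, Real.norm_eq_abs, mul_pow, sq_abs]
  have h : ∀ i j : Fin N, ∫ x : Cfg N, W (pos x i - pos x j) * (t ^ 2 * ‖trig B a x‖ ^ 2) =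
      t ^ 2 * ∫ x : Cfg N, W (pos x i - pos x j) * ‖trig B a x‖ ^ 2 := by
    intro i j
    rw [← integral_const_mul]
    congr 1
    ext x
    ring
  simp only [h, ← Finset.mul_sum]
  ring

end scale

lemma kinF_nonneg {N : ℕ} (B : Finset Mom) (a : (Fin N → Mom) → ℂ) {q : ℝ} (hq : 0 < q) :
    0 ≤ kinF B a q :=
  Finset.sum_nonneg (fun M _ => mul_nonneg (Finset.sum_nonneg (fun i _ =>
    mul_nonneg hq.le (sq_nonneg' _))) (sq_nonneg _))

lemma potF_nonneg {N : ℕ} (B : Finset Mom) (a : (Fin N → Mom) → ℂ) {W : T3 → ℝ} (hW : Pot W) :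
    0 ≤ potF B a W := by
  unfold potF
  refine mul_nonneg (by norm_num) (Finset.sum_nonneg (fun i _ => Finset.sum_nonneg (fun j _ => ?_)))
  exact integral_nonneg (fun x => mul_nonneg (hW.nonneg _) (sq_nonneg _))

lemma wf_zero_coef (B0 : Finset Mom) (y : T3) : wf B0 (fun _ => 0) y = 0 := by
  simp [wf]

lemma Qf_zero (W : T3 → ℝ) (q μ : ℝ) (B0 : Finset Mom) : Qf W q μ B0 (fun _ => 0) = ∫ y, W y := by
  simp [Qf, wf]

/-- the trial state bound for near-minimisers -/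
lemma trial_bound {N : ℕ} {W : T3 → ℝ} (hW : Pot W) (hWm : Measurable W)
    {q I s : ℝ} (hq : 0 < q) (hI : ∫ y, W y = I) (hI0 : 0 < I) (hs : s = N * I) (hs0 : 0 < s)
    {B1 : Finset Mom} (hB1 : Sym B1) {c1 : Mom → ℝ} (hc1 : ∀ n, c1 (-n) = c1 n)
    (hQ : Qf W q (3 * s) B1 c1 ≤ 3 * I) {η : ℝ} (hη : 0 ≤ η)
    {E : ℝ≥0∞}
    (hmin : ∀ φ : Cfg N → ℂ, MemLp φ 2 → ∫ x, ‖φ x‖ ^ 2 = 1 →
      E ≤ kinE q φ + potE (fun y => ENNReal.ofReal (W y)) φ + ENNReal.ofReal η) :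
    E ≤ ENNReal.ofReal (((N : ℝ) ^ 2 / 2) * Qf W q (3 * s) B1 c1 + η) := by
  obtain ⟨a, ha0, ha⟩ := upperB N hW hq hB1 c1 hc1
  set B := insert 0 B1
  set t : ℝ := 1 / Real.sqrt (nrm B a) with ht
  have ht2 : t ^ 2 = 1 / nrm B a := by
    rw [ht, div_pow, Real.sq_sqrt ha0.le, one_pow]
  have h1 := hmin (trig B (fun M => (t : ℂ) * a M)) (trig_memLp _ _) (by
    rw [trig_norm, nrm_scale, ht2]; field_simp)
  rw [trig_kinE _ _ hq, trig_potE _ _ hW hWm, ← ENNReal.ofReal_add (kinF_nonneg _ _ hq)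
    (potF_nonneg _ _ hW), ← ENNReal.ofReal_add (add_nonneg (kinF_nonneg _ _ hq)
    (potF_nonneg _ _ hW)) hη, kinF_scale, potF_scale, ← mul_add, ht2] at h1
  refine h1.trans (ENNReal.ofReal_le_ofReal ?_)
  have hω : 0 ≤ ∑ n ∈ B1, c1 n ^ 2 := Finset.sum_nonneg (fun n _ => sq_nonneg _)
  set ω := ∑ n ∈ B1, c1 n ^ 2 with hωd
  have hWn : 0 ≤ ∫ y, W y * (1 - wf B1 c1 y) ^ 2 :=
    integral_nonneg (fun y => mul_nonneg (hW.nonneg y) (sq_nonneg _))
  have hk : 0 ≤ ∑ n ∈ B1, (q * sq n) * c1 n ^ 2 :=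
    Finset.sum_nonneg (fun n _ => mul_nonneg (mul_nonneg hq.le (sq_nonneg' n)) (sq_nonneg _))
  have hQe : Qf W q (3 * s) B1 c1 = (∫ y, W y * (1 - wf B1 c1 y) ^ 2)
      + 2 * ∑ n ∈ B1, (q * sq n) * c1 n ^ 2 + 6 * s * ω := by
    unfold Qf
    rw [hωd, Finset.mul_sum, Finset.mul_sum, add_assoc, ← Finset.sum_add_distrib]
    congr 1
    exact Finset.sum_congr rfl (fun n _ => by ring)
  have hNω : N * ω ≤ 1 / 2 := by
    have : 6 * s * ω ≤ 3 * I := by linarith
    rw [hs] at this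
    have : (6 * (N * ω) - 3) * I ≤ 0 := by nlinarith
    nlinarith
  have hN0 : (0 : ℝ) ≤ N := by positivity
  have hNω0 : 0 ≤ N * ω := by positivity
  have h4 : 4 * I * (N * ω) * (1 + N * ω) ≤ 6 * s * ω := by
    have : 4 * I * (N * ω) * (1 + N * ω) ≤ 4 * I * (N * ω) * (3 / 2) :=
      mul_le_mul_of_nonneg_left (by linarith) (by positivity)
    rw [hs]; linarith
  have h5 : (kinF B a q + potF B a W) / nrm B a ≤ ((N : ℝ) ^ 2 / 2) * Qf W q (3 * s) B1 c1 := by
    rw [div_le_iff₀ ha0]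
    refine ha.trans ?_
    apply mul_le_mul_of_nonneg_right _ ha0.le
    apply mul_le_mul_of_nonneg_left _ (by positivity)
    rw [hI, hQe]
    linarith
  have h6 : 1 / nrm B a * (kinF B a q + potF B a W) = (kinF B a q + potF B a W) / nrm B a := by
    ring
  rw [h6]
  linarith

lemma pot_min {W : T3 → ℝ} (hW : Pot W) {K : ℝ} (hK : 0 ≤ K) : Pot (fun y => min (W y) K) where
  nonneg y := le_min (hW.nonneg y) hK
  int := by
    have := hW.int.inf (integrable_const K)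
    exact this
  even y := by simp only [hW.even y]

lemma boxM_sym (R : ℕ) : Sym ((boxM R).erase 0) where
  neg n hn := by
    simp only [boxM, Finset.mem_erase, Fintype.mem_piFinset, Finset.mem_Icc, Pi.neg_apply] at hn ⊢
    refine ⟨by simpa using hn.1, fun a => ?_⟩
    have := hn.2 a
    omega
  zero := by simp

lemma insert_box (R : ℕ) : insert 0 ((boxM R).erase 0) = boxM R := by
  apply Finset.insert_erase
  simp [boxM]

lemma omega_ge {W : T3 → ℝ} (hW : Pot W) {q : ℝ} (hq : 0 < q) {s g : ℝ}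
    (hs0 : 0 < s) {B0 : Finset Mom} {cA : Mom → ℝ}
    (hA : Scat W q (5 * s) B0 cA) (hg : 0 < g) (hgG : g ≤ gh W B0 cA 0)
    (hnear : ∀ n, q * sq n ≤ 5 * s → 8 * ∫ y, W y * (1 - cs n y) ≤ g) :
    ((B0.filter (fun n => q * sq n ≤ 5 * s)).card : ℝ) * (g ^ 2 / (1600 * s ^ 2)) ≤
      ∑ n ∈ B0, cA n ^ 2 := by
  have h5 : 0 < 5 * s := by positivity
  calc ((B0.filter (fun n => q * sq n ≤ 5 * s)).card : ℝ) * (g ^ 2 / (1600 * s ^ 2))
      = ∑ n ∈ B0.filter (fun n => q * sq n ≤ 5 * s), g ^ 2 / (1600 * s ^ 2) := by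
        rw [Finset.sum_const, nsmul_eq_mul]
    _ ≤ ∑ n ∈ B0.filter (fun n => q * sq n ≤ 5 * s), cA n ^ 2 := by
        refine Finset.sum_le_sum (fun n hn => ?_)
        rw [Finset.mem_filter] at hn
        have h1 := gh_near hW hq h5 hA n ((hnear n hn.2).trans hgG)
        rw [hA.eq n hn.1] at h1
        have hκ : 0 ≤ q * sq n := mul_nonneg hq.le (sq_nonneg' n)
        have h2 : g / 2 ≤ (2 * (q * sq n) + 2 * (5 * s)) * cA n := by linarith
        have hden : 0 < 2 * (q * sq n) + 2 * (5 * s) := by positivity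
        have hc : 0 < cA n := by
          by_contra h
          push Not at h
          nlinarith
        have h3 : g / 2 ≤ 20 * s * cA n := by nlinarith
        have h4 : g / (40 * s) ≤ cA n := by
          rw [div_le_iff₀ (by positivity)]; linarith
        calc g ^ 2 / (1600 * s ^ 2) = (g / (40 * s)) ^ 2 := by
              rw [div_pow]; ring
          _ ≤ cA n ^ 2 := pow_le_pow_left₀ (by positivity) h4 2
    _ ≤ ∑ n ∈ B0, cA n ^ 2 :=
        Finset.sum_le_sum_of_subset_of_nonneg (Finset.filter_subset _ _)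
          (fun _ _ _ => sq_nonneg _)

end

end Pool.Agent.H751R2.LHY
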