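import Pool.Agent.H751R2.LHY.Core2

open MeasureTheory UnitAddTorus
open scoped ComplexConjugate ENNReal

namespace Pool.Agent.H751R2.LHY

noncomputable section

lemma potE_mono {N : ℕ} {W W' : T3 → ℝ≥0∞} (h : ∀ y, W y ≤ W' y) (ψ : Cfg N → ℂ) :
    potE W ψ ≤ potE W' ψ := by
  unfold potE
  refine lintegral_mono (fun x => ?_)
  gcongr
  exact h _

lemma gh_zero_le {W : T3 → ℝ} (hW : Pot W) {q μ : ℝ} (hq : 0 < q) (hμ : 0 < μ)
    {B0 : Finset Mom} {c : Mom → ℝ} (hc : Scat W q μ B0 c) : gh W B0 c 0 ≤ ∫ y, W y :=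
  (le_abs_self _).trans (gh_le hW hq hμ hc 0)

theorem core {N : ℕ} (hN : 1 ≤ N) {W : T3 → ℝ} (hW : Pot W) (hWm : Measurable W)
    {q I s L T g ν K1 η : ℝ} (hq : 0 < q) (hI : ∫ y, W y = I) (hI0 : 0 < I) (hs : s = N * I)
    (hL : 4 * s ≤ L) (hg : 0 < g)
    (hQ : ∀ K, K1 ≤ K → ∀ B0, Sym B0 → ∀ c, g ≤ Qf (fun y => min (W y) K) q (5 * s) B0 c)
    (hnear : ∀ n, q * sq n ≤ 5 * s → 8 * ∫ y, W y * (1 - cs n y) ≤ g)
    (hT : ∀ F : Finset Mom, (∀ n ∈ F, L < q * sq n) → ∑ n ∈ F, 1 / (q * sq n) ^ 2 ≤ T)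
    (hν : ∀ᶠ R in Filter.atTop,
      ν ≤ ((((boxM R).erase 0).filter (fun n => q * sq n ≤ 5 * s)).card : ℝ))
    (hη : 0 ≤ η)
    {ψ : Cfg N → ℂ} (hψ : MemLp ψ 2) (hψ1 : ∫ x, ‖ψ x‖ ^ 2 = 1)
    (hmin : ∀ φ : Cfg N → ℂ, MemLp φ 2 → ∫ x, ‖φ x‖ ^ 2 = 1 →
      kinE q ψ + potE (fun y => ENNReal.ofReal (W y)) ψ ≤
        kinE q φ + potE (fun y => ENNReal.ofReal (W y)) φ + ENNReal.ofReal η) :
    ((N : ℝ) ^ 2 / 2) * (s * (3.6 * (ν * (g ^ 2 / (1600 * s ^ 2))) - 8 * I ^ 2 * T)) - s - η ≤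
      7 * s * (occE ψ (fun n => n ≠ 0 ∧ q * sq n ≤ L)).toReal := by
  have hNr : (1 : ℝ) ≤ N := by exact_mod_cast hN
  have hs0 : 0 < s := by rw [hs]; positivity
  have h5 : 0 < 5 * s := by positivity
  have h3 : 0 < 3 * s := by positivity
  set Eψ : ℝ≥0∞ := kinE q ψ + potE (fun y => ENNReal.ofReal (W y)) ψ with hEψ
  -- finiteness of the energy
  have hEtop : Eψ ≠ ⊤ := by
    have h := trial_bound (N := N) hW hWm hq hI hI0 hs hs0 (boxM_sym 0) (c1 := fun _ => 0)
      (fun _ => rfl) (by rw [Qf_zero, hI]; linarith) hη hmin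
    exact ne_top_of_le_ne_top ENNReal.ofReal_ne_top h
  have hktop : kinE q ψ ≠ ⊤ := ne_top_of_le_ne_top hEtop le_self_add
  have hptop : potE (fun y => ENNReal.ofReal (W y)) ψ ≠ ⊤ :=
    ne_top_of_le_ne_top hEtop le_add_self
  set σ : ℝ := s * (3.6 * (ν * (g ^ 2 / (1600 * s ^ 2))) - 8 * I ^ 2 * T) with hσ
  set O : ℝ := (occE ψ (fun n => n ≠ 0 ∧ q * sq n ≤ L)).toReal with hO
  -- main: for all small ε
  suffices hmain : ∀ ε : ℝ, 0 < ε → ε ≤ I →
      ((N : ℝ) ^ 2 / 2) * σ - s - η - ((N : ℝ) ^ 2 / 2) * ε ≤ 7 * s * O by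
    by_contra hcon
    push Not at hcon
    set δ := ((N : ℝ) ^ 2 / 2) * σ - s - η - 7 * s * O with hδ
    have hδ0 : 0 < δ := by linarith
    have hN2 : 0 < (N : ℝ) ^ 2 / 2 := by positivity
    have h := hmain (min I (δ / (2 * ((N : ℝ) ^ 2 / 2)))) (lt_min hI0 (by positivity))
      (min_le_left _ _)
    have h2 : ((N : ℝ) ^ 2 / 2) * min I (δ / (2 * ((N : ℝ) ^ 2 / 2))) ≤ δ / 2 := by
      calc ((N : ℝ) ^ 2 / 2) * min I (δ / (2 * ((N : ℝ) ^ 2 / 2)))
          ≤ ((N : ℝ) ^ 2 / 2) * (δ / (2 * ((N : ℝ) ^ 2 / 2))) :=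
            mul_le_mul_of_nonneg_left (min_le_right _ _) hN2.le
        _ = δ / 2 := by field_simp
    linarith
  intro ε hε hεI
  obtain ⟨K0, hK0⟩ := clip hW hWm hq h3 hε
  set K := max (max K0 K1) 0 with hK
  have hKK0 : K0 ≤ K := (le_max_left _ _).trans (le_max_left _ _)
  have hKK1 : K1 ≤ K := (le_max_right _ _).trans (le_max_left _ _)
  have hKn : 0 ≤ K := le_max_right _ _
  set WK : T3 → ℝ := fun y => min (W y) K with hWK
  have hWKp : Pot WK := pot_min hW hKn
  have hWKm : Measurable WK := hWm.min measurable_const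
  have hWKI : ∫ y, WK y ≤ I := by
    rw [← hI]
    exact integral_mono hWKp.int hW.int (fun y => min_le_left _ _)
  have hWKle : ∀ y, WK y ≤ W y := fun y => min_le_left _ _
  -- per-R inequality
  have hR : ∀ᶠ R : ℕ in Filter.atTop, nrm (boxM R) (coef ψ) *
      (Eψ.toReal - η - ((N : ℝ) ^ 2 / 2) * ε + ((N : ℝ) ^ 2 / 2) * σ - s) ≤
      kinF (boxM R) (coef ψ) q + potF (boxM R) (coef ψ) WK + 7 * s * O := by
    filter_upwards [hν] with R hνR
    set B0 := (boxM R).erase 0 with hB0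
    have hS : Sym B0 := boxM_sym R
    obtain ⟨cA, hA⟩ := exists_scat hWKp hq h5 hS
    obtain ⟨cB, hB⟩ := exists_scat hWKp hq h3 hS
    set Γ := gh WK B0 cA 0 + ∑ n ∈ B0, (2 * (q * sq n) + 2 * (5 * s)) * cA n ^ 2 with hΓ
    set A : Mom → ℝ := fun n => if q * sq n ≤ L then q * sq n + 5 * s
      else q * sq n - Γ * N with hAdef
    have hTR : ∑ n ∈ B0.filter (fun n => ¬ q * sq n ≤ L), 1 / (q * sq n) ^ 2 ≤ T :=
      hT _ (fun n hn => lt_of_not_ge (Finset.mem_filter.1 hn).2)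
    obtain ⟨hX, hΓ0, hΓN⟩ := Xbound hWKp hq hN hWKI hI0 hs hL hA hB hTR Γ hΓ A (fun n => rfl)
    -- lower bound of omega
    have hgG : g ≤ gh WK B0 cA 0 := by
      rw [scat_Q hWKp hA]; exact hQ K hKK1 B0 hS cA
    have hnearK : ∀ n, q * sq n ≤ 5 * s → 8 * ∫ y, WK y * (1 - cs n y) ≤ g := by
      intro n hn
      refine le_trans ?_ (hnear n hn)
      have hcs : ∀ y, 0 ≤ 1 - cs n y := by
        intro y
        have h1 : |cs n y| ≤ ‖mFourier n y‖ := Complex.abs_re_le_norm _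
        have h2 : ‖mFourier n y‖ ≤ 1 := by
          have := (mFourier n).norm_coe_le_norm y
          rwa [mFourier_norm] at this
        have := (le_abs_self (cs n y)).trans (h1.trans h2)
        linarith
      have hcsb : ∀ y, |1 - cs n y| ≤ 2 := by
        intro y
        have h1 : |cs n y| ≤ ‖mFourier n y‖ := Complex.abs_re_le_norm _
        have h2 : ‖mFourier n y‖ ≤ 1 := by
          have := (mFourier n).norm_coe_le_norm y
          rwa [mFourier_norm] at this
        have h3 := abs_le.1 (h1.trans h2)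
        rw [abs_le]; constructor <;> linarith [h3.1, h3.2]
      have hcont : Continuous (fun y => 1 - cs n y) := by
        unfold cs
        exact continuous_const.sub (Complex.continuous_re.comp (mFourier n).continuous)
      have hint : ∀ V : T3 → ℝ, Pot V → Integrable (fun y => V y * (1 - cs n y)) := by
        intro V hV
        exact hV.int.mul_bdd (c := 2) hcont.aestronglyMeasurable
          (Filter.Eventually.of_forall (fun y => by rw [Real.norm_eq_abs]; exact hcsb y))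
      gcongr
      · exact hint _ hWKp
      · exact hint _ hW
      · intro y
        exact mul_le_mul_of_nonneg_right (hWKle y) (hcs y)
    have hω := omega_ge hWKp hq hs0 hA hg hgG hnearK
    have hω2 : ν * (g ^ 2 / (1600 * s ^ 2)) ≤ ∑ n ∈ B0, cA n ^ 2 :=
      (mul_le_mul_of_nonneg_right hνR (by positivity)).trans hω
    -- energy upper bound
    have hQB : Qf WK q (3 * s) B0 cB ≤ I := by
      rw [← scat_Q hWKp hB]; exact (gh_zero_le hWKp hq h3 hB).trans hWKI
    obtain ⟨B1, hB1, c1, hc1, hQ1⟩ := hK0 K hKK0 B0 hS cB hB.even (by rw [hI]; linarith)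
    have hE := trial_bound hW hWm hq hI hI0 hs hs0 hB1 hc1 (by linarith) hη hmin
    have hQ1n : 0 ≤ Qf W q (3 * s) B1 c1 := by
      unfold Qf
      refine add_nonneg (integral_nonneg (fun y => mul_nonneg (hW.nonneg y) (sq_nonneg _)))
        (Finset.sum_nonneg (fun n _ => mul_nonneg ?_ (sq_nonneg _)))
      have := sq_nonneg' n; positivity
    have hE2 : Eψ.toReal ≤ ((N : ℝ) ^ 2 / 2) * Qf W q (3 * s) B1 c1 + η :=
      ENNReal.toReal_le_of_le_ofReal (by positivity) hE
    have hN2 : 0 ≤ (N : ℝ) ^ 2 / 2 := by positivity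
    have hE3 : Eψ.toReal - η - ((N : ℝ) ^ 2 / 2) * ε ≤ ((N : ℝ) ^ 2 / 2) * gh WK B0 cB 0 := by
      rw [scat_Q hWKp hB]
      have := mul_le_mul_of_nonneg_left hQ1 hN2
      linarith
    -- combine
    have hX2 : Eψ.toReal - η - ((N : ℝ) ^ 2 / 2) * ε + ((N : ℝ) ^ 2 / 2) * σ - s ≤
        (1 / 2) * Γ * ((N : ℝ) ^ 2 - N)
          - ∑ n ∈ B0, ((N * |gh WK B0 cA n|) ^ 2 / (4 * A n)) *
            (1 + ((N * |gh WK B0 cA n|) / A n) ^ 2) := by
      refine le_trans ?_ hX
      have h1 : σ ≤ s * (3.6 * ∑ n ∈ B0, cA n ^ 2 - 8 * I ^ 2 * T) := by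
        rw [hσ]
        apply mul_le_mul_of_nonneg_left _ hs0.le
        linarith
      have h2 := mul_le_mul_of_nonneg_left h1 hN2
      rw [mul_add]
      linarith
    have hκ : ∀ n, 0 ≤ q * sq n := fun n => mul_nonneg hq.le (sq_nonneg' n)
    have hgN : ∀ n, N * |gh WK B0 cA n| ≤ s := by
      intro n
      rw [hs]
      exact mul_le_mul_of_nonneg_left ((gh_le hWKp hq h5 hA n).trans hWKI) (by positivity)
    have hlow := lowerA hWKp hq h5 hS hA (fun n => if q * sq n ≤ L then 5 * s + Γ * N else 0) A Γ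
      hΓ (by
        intro n _
        simp only [hAdef]
        split_ifs with h
        · have := hκ n; positivity
        · push Not at h; linarith)
      (by intro n _; simp only [hAdef, sq_neg])
      (by
        intro n _
        simp only [hAdef]
        split_ifs with h <;> linarith)
      (by
        intro n _
        simp only [hAdef]
        have h1 := hgN n
        split_ifs with h
        · have := hκ n; linarith
        · push Not at h; linarith)
      (coef ψ)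
    rw [hB0, insert_box R, ← hB0] at hlow
    have hnn : 0 ≤ nrm (boxM R) (coef ψ) := Finset.sum_nonneg (fun _ _ => sq_nonneg _)
    have hocc : ∑ n ∈ B0, (if q * sq n ≤ L then 5 * s + Γ * N else 0) *
        occ (boxM R) (coef ψ) n ≤ 7 * s * O := by
      have h1 : ∑ n ∈ B0, (if q * sq n ≤ L then 5 * s + Γ * N else 0) *
          occ (boxM R) (coef ψ) n =
          (5 * s + Γ * N) * ∑ n ∈ (boxM R).filter (fun n => n ≠ 0 ∧ q * sq n ≤ L),
            occ (boxM R) (coef ψ) n := by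
        rw [Finset.mul_sum]
        have : (boxM R).filter (fun n => n ≠ 0 ∧ q * sq n ≤ L) =
            B0.filter (fun n => q * sq n ≤ L) := by
          ext n; simp only [hB0, Finset.mem_filter, Finset.mem_erase]; tauto
        rw [this, Finset.sum_filter]
        refine Finset.sum_congr rfl (fun n _ => ?_)
        split_ifs <;> simp
      rw [h1]
      have h2 := occ_le_occE hψ (fun n => n ≠ 0 ∧ q * sq n ≤ L) R
      have h3 : 0 ≤ 5 * s + Γ * N := by positivity
      have hO0 : 0 ≤ O := ENNReal.toReal_nonneg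
      calc _ ≤ (5 * s + Γ * N) * O := mul_le_mul_of_nonneg_left h2 h3
        _ ≤ 7 * s * O := mul_le_mul_of_nonneg_right (by linarith) hO0
    have h4 := mul_le_mul_of_nonneg_left hX2 hnn
    linarith
  -- limit
  have hlim1 : Filter.Tendsto (fun R : ℕ => nrm (boxM R) (coef ψ) *
      (Eψ.toReal - η - ((N : ℝ) ^ 2 / 2) * ε + ((N : ℝ) ^ 2 / 2) * σ - s)) Filter.atTop
      (nhds (1 * (Eψ.toReal - η - ((N : ℝ) ^ 2 / 2) * ε + ((N : ℝ) ^ 2 / 2) * σ - s))) := by
    have := nrm_tendsto hψ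
    rw [hψ1] at this
    exact this.mul_const _
  have hlim2 : Filter.Tendsto (fun R : ℕ => kinF (boxM R) (coef ψ) q +
      potF (boxM R) (coef ψ) WK + 7 * s * O) Filter.atTop
      (nhds ((kinE q ψ).toReal + (potE (fun y => ENNReal.ofReal (WK y)) ψ).toReal + 7 * s * O)) :=
    ((kinF_tendsto hq hψ hktop).add (potF_tendsto hWKp hWKm (C := K)
      (fun y => min_le_right _ _) hψ)).add_const _
  have hfin := le_of_tendsto_of_tendsto hlim1 hlim2 hR
  have hpm : (potE (fun y => ENNReal.ofReal (WK y)) ψ).toReal ≤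
      (potE (fun y => ENNReal.ofReal (W y)) ψ).toReal :=
    ENNReal.toReal_mono hptop (potE_mono (fun y => ENNReal.ofReal_le_ofReal (hWKle y)) ψ)
  have hEr : Eψ.toReal = (kinE q ψ).toReal + (potE (fun y => ENNReal.ofReal (W y)) ψ).toReal :=
    ENNReal.toReal_add hktop hptop
  rw [one_mul] at hfin
  linarith

end

end Pool.Agent.H751R2.LHY
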