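import Mathlib

/-!
# Definitions: dilute Bose gas on the (rescaled) unit torus
-/

open MeasureTheory UnitAddTorus
open scoped ComplexConjugate ENNReal

namespace Pool.Agent.H751R2.LHY

noncomputable section

/-- momenta of one particle (dual lattice of the unit torus) -/
abbrev Mom := Fin 3 → ℤ

/-- one-particle torus, rescaled to side one -/
abbrev T3 := UnitAddTorus (Fin 3)

/-- configurations of `N` particles -/
abbrev Cfg (N : ℕ) := UnitAddTorus (Fin N × Fin 3)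

/- the circle `ℝ/ℤ` carries its normalised Haar measure (Mathlib's instance from `AddCircleMulti`) -/
attribute [scoped instance] instMeasureSpaceUnitAddCircle

/-- Haar -/
scoped instance instHaarCirc : Measure.IsAddHaarMeasure (volume : Measure UnitAddCircle) :=
  inferInstanceAs (Measure.IsAddHaarMeasure AddCircle.haarAddCircle)

/-- probability measure -/
scoped instance instProbCirc : IsProbabilityMeasure (volume : Measure UnitAddCircle) :=
  inferInstanceAs (IsProbabilityMeasure AddCircle.haarAddCircle)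

/-- position of particle `i` -/
def pos {N : ℕ} (x : Cfg N) (i : Fin N) : T3 := fun a => x (i, a)

/-- `|n|²` -/
def sq (n : Mom) : ℝ := ∑ a, (n a : ℝ) ^ 2

/-- `cos (2π n·y)` -/
def cs (n : Mom) (y : T3) : ℝ := (mFourier n y).re

/-- the momentum label of the `N`-particle plane wave -/
def unc {N : ℕ} (M : Fin N → Mom) : Fin N × Fin 3 → ℤ := fun p => M p.1 p.2

section Finite

variable {N : ℕ} (B : Finset Mom) (a : (Fin N → Mom) → ℂ)

/-- trigonometric polynomial with one-particle momenta in `B` -/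
def trig (x : Cfg N) : ℂ :=
  ∑ M ∈ Fintype.piFinset (fun _ : Fin N => B), a M * mFourier (unc M) x

/-- squared norm -/
def nrm : ℝ := ∑ M ∈ Fintype.piFinset (fun _ : Fin N => B), ‖a M‖ ^ 2

/-- expected number of particles with momentum `n` -/
def occ (n : Mom) : ℝ :=
  ∑ M ∈ Fintype.piFinset (fun _ : Fin N => B),
    ((Finset.univ.filter (fun i => M i = n)).card : ℝ) * ‖a M‖ ^ 2

/-- kinetic energy, `κ_n = q |n|²` -/
def kinF (q : ℝ) : ℝ :=
  ∑ M ∈ Fintype.piFinset (fun _ : Fin N => B), (∑ i, q * sq (M i)) * ‖a M‖ ^ 2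

/-- pair amplitude `∑_{i ≠ j} ⟨ψ, |0⟩⟨n|_i |0⟩⟨-n|_j ψ⟩` -/
def pairS (n : Mom) : ℂ :=
  ∑ i : Fin N, ∑ j ∈ Finset.univ.erase i,
    ∑ M ∈ (Fintype.piFinset (fun _ : Fin N => B)).filter (fun M => M i = 0 ∧ M j = 0),
      conj (a M) * a (Function.update (Function.update M i n) j (-n))

/-- potential energy `½ ∑_{i≠j} ∫ W(x_i-x_j) |ψ|²` of the trigonometric polynomial -/
def potF (W : T3 → ℝ) : ℝ :=
  (1 / 2) * ∑ i : Fin N, ∑ j ∈ Finset.univ.erase i,
    ∫ x : Cfg N, W (pos x i - pos x j) * ‖trig B a x‖ ^ 2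

end Finite

/-- pair potentials on the torus -/
structure Pot (W : T3 → ℝ) : Prop where
  nonneg : ∀ y, 0 ≤ W y
  int : Integrable W
  even : ∀ y, W (-y) = W y

/-- finite symmetric sets of nonzero momenta -/
structure Sym (B0 : Finset Mom) : Prop where
  neg : ∀ n ∈ B0, -n ∈ B0
  zero : (0 : Mom) ∉ B0

/-- the real even trigonometric polynomial `w(y) = ∑_{n∈B0} c_n cos(2π n·y)` -/
def wf (B0 : Finset Mom) (c : Mom → ℝ) (y : T3) : ℝ := ∑ n ∈ B0, c n * cs n y

/-- `∫ W (1-w) cos(2π n·y)` -/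
def gh (W : T3 → ℝ) (B0 : Finset Mom) (c : Mom → ℝ) (n : Mom) : ℝ :=
  ∫ y, W y * (1 - wf B0 c y) * cs n y

/-- the two-body functional -/
def Qf (W : T3 → ℝ) (q μ : ℝ) (B0 : Finset Mom) (c : Mom → ℝ) : ℝ :=
  (∫ y, W y * (1 - wf B0 c y) ^ 2) + ∑ n ∈ B0, (2 * (q * sq n) + 2 * μ) * c n ^ 2

/-- the (truncated) two-body scattering equation with gap `μ` -/
structure Scat (W : T3 → ℝ) (q μ : ℝ) (B0 : Finset Mom) (c : Mom → ℝ) : Prop where
  even : ∀ n, c (-n) = c n
  eq : ∀ n ∈ B0, gh W B0 c n = (2 * (q * sq n) + 2 * μ) * c n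

section General

variable {N : ℕ}

/-- Fourier coefficient of an `N`-particle function -/
def coef (ψ : Cfg N → ℂ) (M : Fin N → Mom) : ℂ := mFourierCoeff ψ (unc M)

/-- kinetic energy of a general `L²` function (`∞` if not in `H¹`) -/
def kinE (q : ℝ) (ψ : Cfg N → ℂ) : ℝ≥0∞ :=
  ∑' M : Fin N → Mom, ENNReal.ofReal ((∑ i, q * sq (M i)) * ‖coef ψ M‖ ^ 2)

/-- potential energy `∑_{i<j} ∫ W(x_i-x_j)|ψ|²` -/
def potE (W : T3 → ℝ≥0∞) (ψ : Cfg N → ℂ) : ℝ≥0∞ :=
  ∫⁻ x : Cfg N, (∑ i : Fin N, ∑ j ∈ Finset.univ.filter (fun j => i < j),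
    W (pos x i - pos x j)) * ENNReal.ofReal (‖ψ x‖ ^ 2)

/-- expected number of particles whose momentum satisfies `P` -/
def occE (ψ : Cfg N → ℂ) (P : Mom → Prop) [DecidablePred P] : ℝ≥0∞ :=
  ∑' M : Fin N → Mom,
    ENNReal.ofReal (((Finset.univ.filter (fun i => P (M i))).card : ℝ) * ‖coef ψ M‖ ^ 2)

end General

/-! ### random signs and the trial state -/

/-- sign of a Boolean -/
def sg (b : Bool) : ℝ := if b then 1 else -1

/-- `1 + ∑ h_κ η_κ` -/
def zed {K : Type*} [Fintype K] (h : K → ℝ) (η : K → Bool) : ℝ := 1 + ∑ κ, h κ * sg (η κ)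

/-- Hartley function `cos(2π n·y) + sin(2π n·y)` -/
def cas (n : Mom) (y : T3) : ℝ := (mFourier n y).re + (mFourier n y).im

/-- a complex square root of `-c n` -/
def sr (c : Mom → ℝ) (n : Mom) : ℂ :=
  if c n ≤ 0 then (Real.sqrt (-c n) : ℂ) else Complex.I * (Real.sqrt (c n) : ℂ)

/-- one-particle function `1 + ∑_{n∈B0} s_n ξ_n cas_n(y)` -/
def uf (B0 : Finset Mom) (c : Mom → ℝ) (ξ : B0 → Bool) (y : T3) : ℂ :=
  1 + ∑ n : B0, sr c n * (sg (ξ n) : ℂ) * (cas n y : ℂ)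

/-- two-body integral `∫∫ W(x-y) F(x) F(y)` -/
def quad (W : T3 → ℝ) (F : T3 → ℂ) : ℂ := ∫ x : T3, ∫ y : T3, (W (x - y) : ℂ) * F x * F y

/-- the box of momenta `|n_a| ≤ R` -/
def boxM (R : ℕ) : Finset Mom := Fintype.piFinset (fun _ => Finset.Icc (-(R : ℤ)) R)

/-- periodisation of `v` on the torus of side `ℓ`, in the rescaled variable `y = x/ℓ`:
sum of `v (ℓ x)` over all `x ∈ ℝ³` representing `y` -/
def perPot (v : (Fin 3 → ℝ) → ℝ) (ℓ : ℝ) (y : T3) : ℝ≥0∞ :=
  ∑' x : {x : Fin 3 → ℝ // (fun a => (x a : UnitAddCircle)) = y}, ENNReal.ofReal (v (ℓ • x.1))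

end

end Pool.Agent.H751R2.LHY
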