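import Pool.Agent.H751R2.LHY.Core3

open MeasureTheory UnitAddTorus
open scoped ComplexConjugate ENNReal

namespace Pool.Agent.H751R2.LHY

noncomputable section

variable {v : (Fin 3 → ℝ) → ℝ}

/-- truncation of `v` -/
def vt (v : (Fin 3 → ℝ) → ℝ) (k : ℝ) (x : Fin 3 → ℝ) : ℝ :=
  Set.indicator {x : Fin 3 → ℝ | ∀ a, |x a| ≤ k} (fun x => min (v x) k) x

lemma vt_meas (hvm : Measurable v) (k : ℝ) : Measurable (vt v k) := by
  unfold vt
  refine (hvm.min measurable_const).indicator ?_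
  have : {x : Fin 3 → ℝ | ∀ a, |x a| ≤ k} = ⋂ a, {x : Fin 3 → ℝ | |x a| ≤ k} := by
    ext x; simp
  rw [this]
  refine MeasurableSet.iInter (fun a => ?_)
  exact measurableSet_le (by fun_prop) measurable_const

lemma vt_nonneg (h0 : ∀ x, 0 ≤ v x) {k : ℝ} (hk : 0 ≤ k) (x : Fin 3 → ℝ) : 0 ≤ vt v k x :=
  Set.indicator_nonneg (fun x _ => le_min (h0 x) hk) x

lemma vt_le (h0 : ∀ x, 0 ≤ v x) (k : ℝ) (x : Fin 3 → ℝ) : vt v k x ≤ v x := by
  unfold vt
  by_cases h : x ∈ {x : Fin 3 → ℝ | ∀ a, |x a| ≤ k}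
  · rw [Set.indicator_of_mem h]; exact min_le_left _ _
  · rw [Set.indicator_of_notMem h]; exact h0 x

lemma vt_le_k {k : ℝ} (hk : 0 ≤ k) (x : Fin 3 → ℝ) : vt v k x ≤ k := by
  unfold vt
  by_cases h : x ∈ {x : Fin 3 → ℝ | ∀ a, |x a| ≤ k}
  · rw [Set.indicator_of_mem h]; exact min_le_right _ _
  · rw [Set.indicator_of_notMem h]; exact hk

lemma vt_supp {k : ℝ} (x : Fin 3 → ℝ) (hx : vt v k x ≠ 0) (a : Fin 3) : |x a| ≤ k := by
  by_contra h
  apply hx
  unfold vt
  rw [Set.indicator_of_notMem]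
  intro h2
  exact h (h2 a)

lemma vt_even (he : ∀ x, v (-x) = v x) (k : ℝ) (x : Fin 3 → ℝ) : vt v k (-x) = vt v k x := by
  unfold vt
  by_cases h : x ∈ {x : Fin 3 → ℝ | ∀ a, |x a| ≤ k}
  · have h' : -x ∈ {x : Fin 3 → ℝ | ∀ a, |x a| ≤ k} := by
      intro a; simpa using h a
    rw [Set.indicator_of_mem h, Set.indicator_of_mem h', he]
  · have h' : -x ∉ {x : Fin 3 → ℝ | ∀ a, |x a| ≤ k} := by
      intro h2; apply h; intro a; simpa using h2 a
    rw [Set.indicator_of_notMem h, Set.indicator_of_notMem h']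

lemma exists_trunc (hvm : Measurable v) (hv : Integrable v) (h0 : ∀ x, 0 ≤ v x)
    (hne : 0 < ∫ x, v x) : ∃ k : ℝ, 1 ≤ k ∧ 0 < ∫ x, vt v k x := by
  have hlim : Filter.Tendsto (fun k : ℕ => ∫ x, vt v k x) Filter.atTop (nhds (∫ x, v x)) := by
    refine tendsto_integral_of_dominated_convergence v (fun k => (vt_meas hvm k).aestronglyMeasurable)
      hv (fun k => Filter.Eventually.of_forall (fun x => ?_))
      (Filter.Eventually.of_forall (fun x => ?_))
    · rw [Real.norm_eq_abs, abs_of_nonneg (vt_nonneg h0 (by positivity) x)]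
      exact vt_le h0 k x
    · apply tendsto_const_nhds.congr'
      obtain ⟨K, hK⟩ := exists_nat_ge (max (v x) (∑ a, |x a|))
      filter_upwards [Filter.eventually_ge_atTop K] with k hk
      have hkr : (K : ℝ) ≤ k := by exact_mod_cast hk
      have hmem : x ∈ {x : Fin 3 → ℝ | ∀ a, |x a| ≤ (k : ℝ)} := by
        intro a
        have : |x a| ≤ ∑ a, |x a| :=
          Finset.single_le_sum (f := fun a => |x a|) (fun _ _ => abs_nonneg _) (Finset.mem_univ a)
        exact this.trans ((le_max_right _ _).trans (hK.trans hkr))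
      unfold vt
      rw [Set.indicator_of_mem hmem, min_eq_left]
      exact (le_max_left _ _).trans (hK.trans hkr)
  have h1 := (hlim.eventually (lt_mem_nhds hne)).and (Filter.eventually_ge_atTop 1)
  obtain ⟨k, hk, hk1⟩ := h1.exists
  exact ⟨k, by exact_mod_cast hk1, hk⟩

lemma near_cos (hvm : Measurable v) (hv : Integrable v) {ε : ℝ} (hε : 0 < ε) :
    ∃ δ : ℝ, 0 < δ ∧ ∀ κ : Fin 3 → ℝ, ∑ a, κ a ^ 2 ≤ δ →
      ∫ x : Fin 3 → ℝ, v x * (1 - Real.cos (∑ a, κ a * x a)) < ε := by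
  have hcont : Continuous (fun κ : Fin 3 → ℝ =>
      ∫ x : Fin 3 → ℝ, v x * (1 - Real.cos (∑ a, κ a * x a))) := by
    refine continuous_of_dominated (bound := fun x => 2 * |v x|) ?_ ?_ ?_ ?_
    · intro κ
      refine Measurable.aestronglyMeasurable ?_
      exact hvm.mul (by fun_prop)
    · intro κ
      refine Filter.Eventually.of_forall (fun x => ?_)
      rw [norm_mul, Real.norm_eq_abs, Real.norm_eq_abs, mul_comm]
      apply mul_le_mul_of_nonneg_right _ (abs_nonneg _)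
      rw [abs_le]
      constructor <;> linarith [Real.cos_le_one (∑ a, κ a * x a),
        Real.neg_one_le_cos (∑ a, κ a * x a)]
    · exact hv.abs.const_mul 2
    · refine Filter.Eventually.of_forall (fun x => ?_)
      fun_prop
  have h0 : (fun κ : Fin 3 → ℝ =>
      ∫ x : Fin 3 → ℝ, v x * (1 - Real.cos (∑ a, κ a * x a))) 0 < ε := by
    simp [hε]
  have hev := hcont.continuousAt.eventually_lt_const h0
  rw [Metric.eventually_nhds_iff] at hev
  obtain ⟨r, hr, hball⟩ := hev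
  refine ⟨(r / 2) ^ 2, by positivity, fun κ hκ => ?_⟩
  apply hball
  rw [dist_zero_right]
  rw [pi_norm_lt_iff hr]
  intro a
  have h1 : κ a ^ 2 ≤ ∑ a, κ a ^ 2 :=
    Finset.single_le_sum (f := fun a => κ a ^ 2) (fun _ _ => sq_nonneg _) (Finset.mem_univ a)
  have h2 : |κ a| ≤ r / 2 := abs_le_of_sq_le_sq (h1.trans hκ) (by positivity)
  rw [Real.norm_eq_abs]
  linarith

/-- real-valued periodised potential -/
def Wr (v : (Fin 3 → ℝ) → ℝ) (ℓ : ℝ) (y : T3) : ℝ := (perPot v ℓ y).toReal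

lemma perPot_int (hvm : Measurable v) {ℓ : ℝ} (hℓ : 0 < ℓ) :
    ∫⁻ y, perPot v ℓ y = ENNReal.ofReal (1 / ℓ ^ 3) * ∫⁻ x : Fin 3 → ℝ, ENNReal.ofReal (v x) := by
  have := perPot_lint hvm hℓ (fun _ => 1) measurable_const
  simpa using this

lemma perPot_fin (hvm : Measurable v) (hv : Integrable v) {ℓ : ℝ} (hℓ : 0 < ℓ) :
    ∫⁻ y, perPot v ℓ y ≠ ⊤ := by
  rw [perPot_int hvm hℓ]
  refine ENNReal.mul_ne_top ENNReal.ofReal_ne_top ?_
  have h := hv.lintegral_lt_top
  exact h.ne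

lemma perPot_ae (hvm : Measurable v) (hv : Integrable v) {ℓ : ℝ} (hℓ : 0 < ℓ) :
    perPot v ℓ =ᵐ[volume] fun y => ENNReal.ofReal (Wr v ℓ y) := by
  have h := ae_lt_top (perPot_meas hvm ℓ) (perPot_fin hvm hv hℓ)
  filter_upwards [h] with y hy
  rw [Wr, ENNReal.ofReal_toReal hy.ne]

lemma Wr_meas (hvm : Measurable v) (ℓ : ℝ) : Measurable (Wr v ℓ) :=
  (perPot_meas hvm ℓ).ennreal_toReal

lemma Wr_pot (hvm : Measurable v) (hv : Integrable v) (he : ∀ x, v (-x) = v x)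
    {ℓ : ℝ} (hℓ : 0 < ℓ) : Pot (Wr v ℓ) where
  nonneg y := ENNReal.toReal_nonneg
  int := integrable_toReal_of_lintegral_ne_top (perPot_meas hvm ℓ).aemeasurable
    (perPot_fin hvm hv hℓ)
  even y := by rw [Wr, perPot_even he, Wr]

/-- integrals against the periodised potential -/
lemma Wr_integral (hvm : Measurable v) (hv : Integrable v) (h0 : ∀ x, 0 ≤ v x)
    {ℓ : ℝ} (hℓ : 0 < ℓ) {f : T3 → ℝ} (hf : Measurable f) (hf0 : ∀ y, 0 ≤ f y) :
    ∫ y, Wr v ℓ y * f y = (1 / ℓ ^ 3) *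
      ∫ x : Fin 3 → ℝ, v x * f (fun a => ((x a / ℓ : ℝ) : UnitAddCircle)) := by
  have hmeas : Measurable (fun x : Fin 3 → ℝ => f (fun a => ((x a / ℓ : ℝ) : UnitAddCircle))) := by
    apply hf.comp
    refine measurable_pi_lambda _ (fun a => ?_)
    have h : Measurable (fun x : Fin 3 → ℝ => x a / ℓ) := by fun_prop
    exact AddCircle.measurable_mk'.comp h
  rw [integral_eq_lintegral_of_nonneg_ae
    (f := fun y => Wr v ℓ y * f y)
    (Filter.Eventually.of_forall (fun y => mul_nonneg ENNReal.toReal_nonneg (hf0 y)))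
    ((Wr_meas hvm ℓ).mul hf).aestronglyMeasurable,
    integral_eq_lintegral_of_nonneg_ae
    (Filter.Eventually.of_forall (fun x => mul_nonneg (h0 x) (hf0 _)))
    (hvm.mul hmeas).aestronglyMeasurable]
  have h1 : ∫⁻ y, ENNReal.ofReal (Wr v ℓ y * f y) =
      ∫⁻ y, perPot v ℓ y * ENNReal.ofReal (f y) := by
    refine lintegral_congr_ae ?_
    filter_upwards [perPot_ae hvm hv hℓ] with y hy
    rw [hy, ENNReal.ofReal_mul (show 0 ≤ Wr v ℓ y from ENNReal.toReal_nonneg)]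
  rw [h1, perPot_lint hvm hℓ _ hf.ennreal_ofReal, ENNReal.toReal_mul,
    ENNReal.toReal_ofReal (by positivity)]
  congr 2
  refine lintegral_congr (fun x => ?_)
  rw [ENNReal.ofReal_mul (h0 x)]

lemma Wr_int_one (hvm : Measurable v) (hv : Integrable v) (h0 : ∀ x, 0 ≤ v x)
    {ℓ : ℝ} (hℓ : 0 < ℓ) : ∫ y, Wr v ℓ y = (∫ x, v x) / ℓ ^ 3 := by
  have := Wr_integral hvm hv h0 hℓ (f := fun _ => 1) measurable_const (fun _ => zero_le_one)
  simp only [mul_one] at this
  rw [this]; ring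

lemma mFourier_coe (n : Mom) (x : Fin 3 → ℝ) :
    (mFourier n (fun a => ((x a : ℝ) : UnitAddCircle)) : ℂ) =
      Complex.exp ((∑ a, 2 * Real.pi * n a * x a : ℝ) * Complex.I) := by
  rw [mFourier, ContinuousMap.coe_mk]
  simp only [fourier_coe_apply]
  rw [← Complex.exp_sum]
  congr 1
  push_cast
  rw [Finset.sum_mul]
  refine Finset.sum_congr rfl (fun a _ => ?_)
  ring

lemma cs_coe (n : Mom) (x : Fin 3 → ℝ) :
    cs n (fun a => ((x a : ℝ) : UnitAddCircle)) = Real.cos (∑ a, 2 * Real.pi * n a * x a) := by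
  rw [cs, mFourier_coe, Complex.exp_ofReal_mul_I_re]

lemma cs_meas (n : Mom) : Measurable (cs n) := by
  unfold cs
  exact (Complex.continuous_re.comp (mFourier n).continuous).measurable

lemma cs_le_one (n : Mom) (y : T3) : cs n y ≤ 1 := by
  have h1 : |cs n y| ≤ ‖mFourier n y‖ := Complex.abs_re_le_norm _
  have h2 : ‖mFourier n y‖ ≤ 1 := by
    have := (mFourier n).norm_coe_le_norm y
    rwa [mFourier_norm] at this
  exact (le_abs_self (cs n y)).trans (h1.trans h2)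

lemma Wr_cos (hvm : Measurable v) (hv : Integrable v) (h0 : ∀ x, 0 ≤ v x)
    {ℓ : ℝ} (hℓ : 0 < ℓ) (n : Mom) :
    ∫ y, Wr v ℓ y * (1 - cs n y) = (1 / ℓ ^ 3) *
      ∫ x : Fin 3 → ℝ, v x * (1 - Real.cos (∑ a, (2 * Real.pi / ℓ * n a) * x a)) := by
  rw [Wr_integral hvm hv h0 hℓ (f := fun y => 1 - cs n y) (measurable_const.sub (cs_meas n))
    (fun y => by linarith [cs_le_one n y])]
  congr 2
  ext x
  rw [cs_coe n (fun a => x a / ℓ)]
  congr 3
  refine Finset.sum_congr rfl (fun a _ => ?_)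
  ring

end

end Pool.Agent.H751R2.LHY
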