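import Pool.Agent.H751R2.LHY.Fin1

open MeasureTheory UnitAddTorus
open scoped ComplexConjugate ENNReal

namespace Pool.Agent.H751R2.LHY

noncomputable section

variable {v : (Fin 3 → ℝ) → ℝ}

lemma potE_congr {N : ℕ} {W W' : T3 → ℝ≥0∞} (h : W =ᵐ[volume] W') (ψ : Cfg N → ℂ) :
    potE W ψ = potE W' ψ := by
  unfold potE
  refine lintegral_congr_ae ?_
  have hall : ∀ᵐ x : Cfg N, ∀ i j : Fin N, i ≠ j → W (pos x i - pos x j) = W' (pos x i - pos x j) := by
    rw [ae_all_iff]; intro i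
    rw [ae_all_iff]; intro j
    by_cases hij : i = j
    · exact Filter.Eventually.of_forall (fun x h => absurd hij h)
    · have := (mp_diff (N := N) hij).quasiMeasurePreserving.ae h
      filter_upwards [this] with x hx _
      exact hx
  filter_upwards [hall] with x hx
  congr 1
  refine Finset.sum_congr rfl (fun i _ => Finset.sum_congr rfl (fun j hj => ?_))
  exact hx i j (Finset.mem_filter.1 hj).2.ne

/-- uniform lower bound for the two-body energy of the cut-off periodised potential -/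
lemma hQ_lemma (hvm : Measurable v) (hv : Integrable v) (h0 : ∀ x, 0 ≤ v x)
    (he : ∀ x, v (-x) = v x) {k A τ : ℝ} (hk : 1 ≤ k) (hA : A = ∫ x, vt v k x) (hA0 : 0 < A)
    (hτ : 0 < τ) {ℓ : ℝ} (hℓ1 : 1 ≤ ℓ) (hℓk : 2 * k < ℓ) {μ : ℝ} (hμ : 0 ≤ μ) :
    ∀ K, k ≤ K → ∀ B0, Sym B0 → ∀ c, (A ^ 2 / (A + (7 * A ^ 2 + k * A) / τ)) / ℓ ^ 3 ≤
      Qf (fun y => min (Wr v ℓ y) K) (τ * (2 * Real.pi / ℓ) ^ 2) μ B0 c := by
  intro K hK B0 hB0 c
  have hℓ0 : 0 < ℓ := by linarith
  have hk0 : 0 ≤ k := by linarith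
  have hvtm := vt_meas hvm k
  have hvt0 := vt_nonneg h0 hk0
  have hvti : Integrable (vt v k) := by
    refine hv.mono hvtm.aestronglyMeasurable (Filter.Eventually.of_forall (fun x => ?_))
    rw [Real.norm_eq_abs, Real.norm_eq_abs, abs_of_nonneg (hvt0 x), abs_of_nonneg (h0 x)]
    exact vt_le h0 k x
  have hvte := vt_even he k
  set u : T3 → ℝ := fun y => min (Wr (vt v k) ℓ y) (Wr v ℓ y) with hu
  have hWp := Wr_pot hvm hv he hℓ0
  have hup : Pot (Wr (vt v k) ℓ) := Wr_pot hvtm hvti hvte hℓ0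
  have hpu : Pot u := ⟨fun y => le_min (hup.nonneg y) (hWp.nonneg y), hup.int.inf hWp.int,
    fun y => by simp only [hu, hup.even y, hWp.even y]⟩
  have hum : Measurable u := (Wr_meas hvtm ℓ).min (Wr_meas hvm ℓ)
  -- perPot monotone
  have hmono : ∀ y, perPot (vt v k) ℓ y ≤ perPot v ℓ y := by
    intro y
    unfold perPot
    exact ENNReal.tsum_le_tsum (fun x => ENNReal.ofReal_le_ofReal (vt_le h0 k _))
  have hae : u =ᵐ[volume] Wr (vt v k) ℓ := by
    have h := ae_lt_top (perPot_meas hvm ℓ) (perPot_fin hvm hv hℓ0)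
    filter_upwards [h] with y hy
    simp only [hu]
    apply min_eq_left
    exact ENNReal.toReal_mono hy.ne (hmono y)
  have huU : ∀ y, u y ≤ k := by
    intro y
    refine (min_le_left _ _).trans ?_
    have h1 : perPot (vt v k) ℓ y ≤ ENNReal.ofReal k :=
      perPot_le (fun x => vt_le_k hk0 x) (fun x hx a => vt_supp x hx a) hℓk hℓ0 y
    exact ENNReal.toReal_le_of_le_ofReal hk0 h1
  have hui : ∫ y, u y = A / ℓ ^ 3 := by
    rw [integral_congr_ae hae, Wr_int_one hvtm hvti hvt0 hℓ0, hA]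
  refine Q_lower (u := u) (pot_min hWp (by linarith)) hpu hum (fun y => ?_) hτ hℓ1 hA0 huU hui hμ hB0 c
  exact le_min (min_le_right _ _) ((huU y).trans hK)

end

end Pool.Agent.H751R2.LHY
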