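import Pool.Agent.H751R2.LHY.Fin2

open MeasureTheory UnitAddTorus
open scoped ComplexConjugate ENNReal

namespace Pool.Agent.H751R2.LHY

noncomputable section

/-- total energy `⟨ψ, H_N ψ⟩` on the torus of side `ℓ` (rescaled variables `y = x/ℓ`) -/
def energy {N : ℕ} (m : ℝ) (v : (Fin 3 → ℝ) → ℝ) (ℓ : ℝ) (ψ : Cfg N → ℂ) : ℝ≥0∞ :=
  kinE (1 / (2 * m) * (2 * Real.pi / ℓ) ^ 2) ψ + potE (perPot v ℓ) ψ

/-- scalar computation at the end of the proof -/
lemma final_scalar {Nr ρ ℓ V0 P b1 KL g Ct ν T s I : ℝ}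
    (hN : Nr = ρ * ℓ ^ 3) (hρ : 0 < ρ) (hℓ : 0 < ℓ) (hV : 0 < V0) (hP : 0 < P)
    (hKL : 0 < KL) (hs : s = ρ * V0) (hI : I = V0 / ℓ ^ 3) (hCt : 0 < Ct)
    (hν : ν = 5 * s * Real.sqrt (5 * s) * ℓ ^ 3 / (27 * P))
    (hT : T = Ct * ℓ ^ 3 / (P * Real.sqrt (KL * s)))
    (hb1 : b1 = Real.sqrt 5 * g ^ 2 / (8640 * P))
    (hK : 8 * V0 ^ 2 * Ct / (P * Real.sqrt KL) ≤ 2.6 * b1) :
    Nr * (ρ * Real.sqrt ρ) * (b1 * Real.sqrt V0 / 2) ≤
      (Nr ^ 2 / 2) * (s * (3.6 * (ν * ((g / ℓ ^ 3) ^ 2 / (1600 * s ^ 2))) - 8 * I ^ 2 * T)) := by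
  have hs0 : 0 < s := by rw [hs]; positivity
  have hN0 : 0 < Nr := by rw [hN]; positivity
  have hss : 0 < Real.sqrt s := Real.sqrt_pos.2 hs0
  have hKs : 0 < Real.sqrt KL := Real.sqrt_pos.2 hKL
  have h1 : Real.sqrt (5 * s) = Real.sqrt 5 * Real.sqrt s := Real.sqrt_mul (by norm_num) s
  have h2 : Real.sqrt (KL * s) = Real.sqrt KL * Real.sqrt s := Real.sqrt_mul hKL.le s
  have hsq : Real.sqrt s ^ 2 = s := Real.sq_sqrt hs0.le
  have e1 : ν * ((g / ℓ ^ 3) ^ 2 / (1600 * s ^ 2)) = b1 / (Real.sqrt s * ℓ ^ 3) := by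
    rw [hν, hb1, h1]
    rw [div_pow, div_mul_div_comm, div_eq_div_iff (by positivity) (by positivity)]
    have : s = Real.sqrt s ^ 2 := hsq.symm
    field_simp
    rw [hsq]
    ring
  have e2 : 8 * I ^ 2 * T = (8 * V0 ^ 2 * Ct / (P * Real.sqrt KL)) / (Real.sqrt s * ℓ ^ 3) := by
    rw [hI, hT, h2]
    field_simp
  have e3 : b1 / (Real.sqrt s * ℓ ^ 3) ≤
      3.6 * (ν * ((g / ℓ ^ 3) ^ 2 / (1600 * s ^ 2))) - 8 * I ^ 2 * T := by
    rw [e1, e2, ← mul_div_assoc, ← sub_div]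
    apply div_le_div_of_nonneg_right _ (by positivity)
    linarith
  have e4 : (Nr ^ 2 / 2) * (s * (b1 / (Real.sqrt s * ℓ ^ 3))) =
      Nr * (ρ * Real.sqrt ρ) * (b1 * Real.sqrt V0 / 2) := by
    have h3 : Real.sqrt s = Real.sqrt ρ * Real.sqrt V0 := by
      rw [hs]; exact Real.sqrt_mul hρ.le V0
    have h4 : s / Real.sqrt s = Real.sqrt s := Real.div_sqrt
    have h5 : s * (b1 / (Real.sqrt s * ℓ ^ 3)) = Real.sqrt s * b1 / ℓ ^ 3 := by
      rw [← h4]
      field_simp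
      rw [hsq]; ring
    rw [h5, h3, hN]
    field_simp
  rw [← e4]
  apply mul_le_mul_of_nonneg_left _ (by positivity)
  exact mul_le_mul_of_nonneg_left e3 hs0.le

/-- Parseval on configuration space -/
lemma parseval {N : ℕ} {ψ : Cfg N → ℂ} (hψ : MemLp ψ 2) :
    HasSum (fun M : Fin N → Mom => ‖coef ψ M‖ ^ 2) (∫ x, ‖ψ x‖ ^ 2) := by
  have h := hasSum_sq_mFourierCoeff (hψ.toLp ψ)
  have h1 : ∀ m, mFourierCoeff (hψ.toLp ψ) m = mFourierCoeff ψ m := by
    intro m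
    unfold mFourierCoeff
    refine integral_congr_ae ?_
    filter_upwards [hψ.coeFn_toLp] with x hx
    rw [hx]
  have h2 : ∫ x, ‖(hψ.toLp ψ) x‖ ^ 2 = ∫ x, ‖ψ x‖ ^ 2 := by
    refine integral_congr_ae ?_
    filter_upwards [hψ.coeFn_toLp] with x hx
    rw [hx]
  rw [h2] at h
  simp only [h1] at h
  have e : (fun M : Fin N → Mom => ‖coef ψ M‖ ^ 2) =
      (fun m : Fin N × Fin 3 → ℤ => ‖mFourierCoeff ψ m‖ ^ 2) ∘
        (Equiv.curry (Fin N) (Fin 3) ℤ).symm := by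
    ext M; rfl
  rw [e]
  exact (Equiv.hasSum_iff _).2 h

lemma occE_compl {N : ℕ} {ψ : Cfg N → ℂ} (hψ : MemLp ψ 2) (hψ1 : ∫ x, ‖ψ x‖ ^ 2 = 1)
    (P : Mom → Prop) [DecidablePred P] (hP : ¬ P 0) {t : ℝ} (ht : ENNReal.ofReal t ≤ occE ψ P) :
    occE ψ (fun n => n = 0) ≤ ENNReal.ofReal (N - t) := by
  have hpar := parseval hψ
  rw [hψ1] at hpar
  have hsum : occE ψ (fun n => n = 0) + occE ψ P ≤ ENNReal.ofReal N := by
    unfold occE
    rw [← ENNReal.tsum_add]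
    have h1 : ∀ M : Fin N → Mom,
        ENNReal.ofReal (((Finset.univ.filter (fun i => M i = 0)).card : ℝ) * ‖coef ψ M‖ ^ 2) +
        ENNReal.ofReal (((Finset.univ.filter (fun i => P (M i))).card : ℝ) * ‖coef ψ M‖ ^ 2) ≤
        ENNReal.ofReal (N * ‖coef ψ M‖ ^ 2) := by
      intro M
      rw [← ENNReal.ofReal_add (by positivity) (by positivity), ← add_mul]
      apply ENNReal.ofReal_le_ofReal
      apply mul_le_mul_of_nonneg_right _ (sq_nonneg _)
      have hd : Disjoint (Finset.univ.filter (fun i => M i = 0))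
          (Finset.univ.filter (fun i => P (M i))) := by
        rw [Finset.disjoint_filter]
        intro i _ h0 h1
        rw [h0] at h1; exact hP h1
      have h2 := Finset.card_union_of_disjoint hd
      have h3 : ((Finset.univ.filter (fun i => M i = 0)) ∪
          (Finset.univ.filter (fun i => P (M i)))).card ≤ N := by
        have := Finset.card_le_univ ((Finset.univ.filter (fun i => M i = 0)) ∪
          (Finset.univ.filter (fun i => P (M i))))
        simpa using this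
      rw [h2] at h3
      exact_mod_cast h3
    refine (ENNReal.tsum_le_tsum h1).trans ?_
    have hs : HasSum (fun M : Fin N → Mom => (N : ℝ) * ‖coef ψ M‖ ^ 2) (N * 1) :=
      hpar.mul_left _
    rw [← ENNReal.ofReal_tsum_of_nonneg (fun M => by positivity) hs.summable, hs.tsum_eq, mul_one]
  have h2 : occE ψ (fun n => n = 0) + ENNReal.ofReal t ≤ ENNReal.ofReal N :=
    (add_le_add_right ht _).trans hsum
  by_cases ht0 : 0 ≤ t
  · rw [ENNReal.ofReal_sub _ ht0]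
    exact ENNReal.le_sub_of_add_le_right ENNReal.ofReal_ne_top h2
  · push Not at ht0
    refine (le_self_add.trans h2).trans (ENNReal.ofReal_le_ofReal (by linarith))

end

end Pool.Agent.H751R2.LHY
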