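import Pool.Agent.H751R2.LHY.Fin3

open MeasureTheory UnitAddTorus
open scoped ComplexConjugate ENNReal

namespace Pool.Agent.H751R2.LHY

noncomputable section

lemma occE_congr {N : ℕ} (ψ : Cfg N → ℂ) (P P' : Mom → Prop) [DecidablePred P]
    [DecidablePred P'] (h : ∀ n, P n ↔ P' n) : occE ψ P = occE ψ P' := by
  unfold occE
  refine tsum_congr (fun M => ?_)
  have : (Finset.univ.filter (fun i => P (M i))) = (Finset.univ.filter (fun i => P' (M i))) := by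
    ext i; simp [h]
  rw [this]

lemma near_g {v : (Fin 3 → ℝ) → ℝ} (hvm : Measurable v) (hv : Integrable v)
    (h0 : ∀ x, 0 ≤ v x) {τ δ gs ρ V0 s q ℓ : ℝ} (hτ : 0 < τ) (hV0 : 0 < V0)
    (hnear : ∀ κ : Fin 3 → ℝ, ∑ a, κ a ^ 2 ≤ δ →
      ∫ x : Fin 3 → ℝ, v x * (1 - Real.cos (∑ a, κ a * x a)) < gs / 8)
    (hρ0 : ρ < τ * δ / (5 * V0)) (hs : s = ρ * V0) (hℓ : 0 < ℓ)
    (hq : q = τ * (2 * Real.pi / ℓ) ^ 2) (n : Mom) (hn : q * sq n ≤ 5 * s) :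
    8 * ∫ y, Wr v ℓ y * (1 - cs n y) ≤ gs / ℓ ^ 3 := by
  rw [Wr_cos hvm hv h0 hℓ n]
  have h1 : ∑ a, (2 * Real.pi / ℓ * (n a : ℝ)) ^ 2 ≤ δ := by
    have h2 : ∑ a, (2 * Real.pi / ℓ * (n a : ℝ)) ^ 2 = (2 * Real.pi / ℓ) ^ 2 * sq n := by
      rw [sq, Finset.mul_sum]
      exact Finset.sum_congr rfl (fun a _ => by ring)
    rw [h2]
    have h3 : τ * ((2 * Real.pi / ℓ) ^ 2 * sq n) ≤ 5 * s := by
      rw [hq] at hn; linarith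
    have h4 : 5 * s ≤ τ * δ := by
      rw [lt_div_iff₀ (by positivity)] at hρ0
      rw [hs]; linarith
    exact le_of_mul_le_mul_left (h3.trans h4) hτ
  have h5 := (hnear _ h1).le
  have h6 := mul_le_mul_of_nonneg_left h5 (show 0 ≤ 1 / ℓ ^ 3 by positivity)
  calc 8 * (1 / ℓ ^ 3 * ∫ x : Fin 3 → ℝ, v x *
        (1 - Real.cos (∑ a, 2 * Real.pi / ℓ * (n a : ℝ) * x a)))
      ≤ 8 * (1 / ℓ ^ 3 * (gs / 8)) := by linarith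
    _ = gs / ℓ ^ 3 := by ring

lemma tail_T {Ct q L P ℓ T : ℝ} (htail : ∀ (t : ℝ), 1 ≤ t → ∀ F : Finset Mom,
    (∀ n ∈ F, t ^ 2 < sq n) → ∑ n ∈ F, 1 / sq n ^ 2 ≤ Ct / t)
    (hq0 : 0 < q) (hqL : q ≤ L) (hP0 : 0 < P) (hℓ : 0 < ℓ)
    (hqP : q * Real.sqrt q = P / ℓ ^ 3) (hT : T = Ct * ℓ ^ 3 / (P * Real.sqrt L))
    (F : Finset Mom) (hF : ∀ n ∈ F, L < q * sq n) :
    ∑ n ∈ F, 1 / (q * sq n) ^ 2 ≤ T := by
  have hL0 : 0 < L := by linarith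
  have hLq : 0 < L / q := by positivity
  have ht1 : 1 ≤ Real.sqrt (L / q) := by
    rw [Real.one_le_sqrt, one_le_div hq0]; exact hqL
  have h1 := htail (Real.sqrt (L / q)) ht1 F (by
    intro n hn
    rw [Real.sq_sqrt hLq.le, div_lt_iff₀ hq0]
    have := hF n hn
    linarith)
  have h2 : ∑ n ∈ F, 1 / (q * sq n) ^ 2 = (1 / q ^ 2) * ∑ n ∈ F, 1 / sq n ^ 2 := by
    rw [Finset.mul_sum]
    refine Finset.sum_congr rfl (fun n _ => ?_)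
    rw [mul_pow]
    rw [one_div_mul_one_div]
  rw [h2]
  have hsL : 0 < Real.sqrt L := Real.sqrt_pos.2 hL0
  have hsqp : 0 < Real.sqrt q := Real.sqrt_pos.2 hq0
  calc (1 / q ^ 2) * ∑ n ∈ F, 1 / sq n ^ 2 ≤ (1 / q ^ 2) * (Ct / Real.sqrt (L / q)) :=
        mul_le_mul_of_nonneg_left h1 (by positivity)
    _ = T := by
        have h4 : T = Ct / ((P / ℓ ^ 3) * Real.sqrt L) := by
          rw [hT]; field_simp
        rw [h4, ← hqP, Real.sqrt_div' _ hq0.le]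
        rw [div_div_eq_mul_div, one_div_mul_eq_div, div_div,
          div_eq_div_iff (by positivity) (by positivity)]
        have h5 : Real.sqrt q * Real.sqrt q = q := Real.mul_self_sqrt hq0.le
        calc Ct * Real.sqrt q * (q * Real.sqrt q * Real.sqrt L)
            = Ct * (Real.sqrt q * Real.sqrt q) * q * Real.sqrt L := by ring
          _ = Ct * (Real.sqrt L * q ^ 2) := by rw [h5]; ring

lemma count_nu {s q P ℓ ν : ℝ} (hs0 : 0 < s) (hq0 : 0 < q) (h4q : 4 * q ≤ 5 * s) (hP0 : 0 < P)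
    (hℓ : 0 < ℓ) (hqP : q * Real.sqrt q = P / ℓ ^ 3)
    (hν : ν = 5 * s * Real.sqrt (5 * s) * ℓ ^ 3 / (27 * P)) :
    ∀ᶠ R in Filter.atTop,
      ν ≤ ((((boxM R).erase 0).filter (fun n => q * sq n ≤ 5 * s)).card : ℝ) := by
  have h5sq : 0 < 5 * s / q := by positivity
  obtain ⟨t1, ht1⟩ : ∃ t1, t1 = Real.sqrt (5 * s / q) := ⟨_, rfl⟩
  have ht12 : t1 ^ 2 = 5 * s / q := by rw [ht1]; exact Real.sq_sqrt h5sq.le
  have ht2 : 2 ≤ t1 := by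
    rw [ht1]
    apply Real.le_sqrt_of_sq_le
    rw [le_div_iff₀ hq0]; linarith
  obtain ⟨R0, hR0⟩ := exists_nat_ge t1
  filter_upwards [Filter.eventually_ge_atTop R0] with R hR
  have h1 := count_ge t1 ht2 R (hR0.trans (by exact_mod_cast hR))
  have h2 : ν = t1 ^ 3 / 27 := by
    have h3 : t1 ^ 3 = (5 * s / q) * (Real.sqrt (5 * s) / Real.sqrt q) := by
      rw [← Real.sqrt_div' _ hq0.le, ← ht1, ← ht12]; ring
    have hsqp : 0 < Real.sqrt q := Real.sqrt_pos.2 hq0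
    have h4 : ν = 5 * s * Real.sqrt (5 * s) / (27 * (P / ℓ ^ 3)) := by
      rw [hν]; field_simp
    rw [h3, h4, ← hqP]
    field_simp
  rw [h2]
  refine h1.trans (le_of_eq ?_)
  congr 2
  ext n
  simp only [Finset.mem_filter, and_congr_right_iff]
  intro _
  rw [ht12, le_div_iff₀ hq0, mul_comm]

/-- the estimate on one torus -/
lemma one_torus {v : (Fin 3 → ℝ) → ℝ} (hvm : Measurable v)
    (hv : Integrable v) (h0 : ∀ x, 0 ≤ v x) (he : ∀ x, v (-x) = v x)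
    {τ V0 gs k A δ Ct P b1 KL c ρ ℓ : ℝ} (hV0 : V0 = ∫ x, v x) (hne : 0 < V0)
    (hk1 : 1 ≤ k) (hA : A = ∫ x, vt v k x) (hA0 : 0 < A)
    (hτ : 0 < τ) (hgs : gs = A ^ 2 / (A + (7 * A ^ 2 + k * A) / τ)) (hgs0 : 0 < gs)
    (hnear : ∀ κ : Fin 3 → ℝ, ∑ a, κ a ^ 2 ≤ δ →
      ∫ x : Fin 3 → ℝ, v x * (1 - Real.cos (∑ a, κ a * x a)) < gs / 8)
    (hCt : 0 < Ct) (htail : ∀ (t : ℝ), 1 ≤ t → ∀ F : Finset Mom,
      (∀ n ∈ F, t ^ 2 < sq n) → ∑ n ∈ F, 1 / sq n ^ 2 ≤ Ct / t)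
    (hP : P = τ * Real.sqrt τ * (2 * Real.pi) ^ 3)
    (hb1 : b1 = Real.sqrt 5 * gs ^ 2 / (8640 * P)) (hKL4 : 4 ≤ KL)
    (hKb : 8 * V0 ^ 2 * Ct / (P * Real.sqrt KL) ≤ 2.6 * b1)
    (hc0 : 0 < c) (hc1 : c ≤ (b1 * Real.sqrt V0 / 2) / 4)
    (hc2 : c ≤ (b1 * Real.sqrt V0 / 2) / (14 * V0))
    (hρ : 0 < ρ) (hρ0 : ρ < τ * δ / (5 * V0)) {N : ℕ} (hN1 : 1 ≤ N) (hℓ : 0 < ℓ)
    (hNℓ : (N : ℝ) = ρ * ℓ ^ 3)
    (hN4 : 4 * V0 / ((b1 * Real.sqrt V0 / 2) * Real.sqrt ρ) ≤ N)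
    (hℓ1 : 1 ≤ ℓ) (hℓk : 2 * k < ℓ) (hℓs : 16 * Real.pi ^ 2 * τ / (5 * (ρ * V0)) ≤ ℓ ^ 2)
    {q : ℝ} (hq : q = τ * (2 * Real.pi / ℓ) ^ 2)
    {ψ : Cfg N → ℂ} (hψ : MemLp ψ 2) (hψ1 : ∫ x, ‖ψ x‖ ^ 2 = 1)
    (hmin : ∀ φ : Cfg N → ℂ, MemLp φ 2 → ∫ x, ‖φ x‖ ^ 2 = 1 →
        kinE q ψ + potE (perPot v ℓ) ψ ≤
        kinE q φ + potE (perPot v ℓ) φ + ENNReal.ofReal (c * (ρ * Real.sqrt ρ) * N)) :
    c * Real.sqrt ρ * N ≤ (occE ψ (fun n => n ≠ 0 ∧ q * sq n ≤ KL * (ρ * V0))).toReal := by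
  have hPi : 0 < Real.pi := Real.pi_pos
  have hsτ : 0 < Real.sqrt τ := Real.sqrt_pos.2 hτ
  have hP0 : 0 < P := by rw [hP]; positivity
  have hb10 : 0 < b1 := by
    have : 0 < Real.sqrt 5 := Real.sqrt_pos.2 (by norm_num)
    rw [hb1]; positivity
  have hKL0 : 0 < KL := by linarith
  have hsV : 0 < Real.sqrt V0 := Real.sqrt_pos.2 hne
  have hsρ : 0 < Real.sqrt ρ := Real.sqrt_pos.2 hρ
  have hNpos : (0 : ℝ) < N := by exact_mod_cast hN1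
  obtain ⟨s, hs⟩ : ∃ s, s = ρ * V0 := ⟨_, rfl⟩
  have hs0 : 0 < s := by rw [hs]; positivity
  rw [← hs] at hℓs ⊢
  have hq0 : 0 < q := by rw [hq]; positivity
  have hsq : Real.sqrt q = Real.sqrt τ * (2 * Real.pi / ℓ) := by
    rw [hq, Real.sqrt_mul hτ.le, Real.sqrt_sq (by positivity)]
  have hqP : q * Real.sqrt q = P / ℓ ^ 3 := by
    rw [hsq, hq, hP]; field_simp
  have h4q : 4 * q ≤ 5 * s := by
    rw [div_le_iff₀ (by positivity)] at hℓs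
    have : 4 * q = 16 * Real.pi ^ 2 * τ / ℓ ^ 2 := by rw [hq]; field_simp; ring
    rw [this, div_le_iff₀ (by positivity)]
    linarith
  obtain ⟨I, hI⟩ : ∃ I, I = V0 / ℓ ^ 3 := ⟨_, rfl⟩
  have hI0 : 0 < I := by rw [hI]; positivity
  obtain ⟨g, hg⟩ : ∃ g, g = gs / ℓ ^ 3 := ⟨_, rfl⟩
  have hg0 : 0 < g := by rw [hg]; positivity
  obtain ⟨ν, hν⟩ : ∃ ν, ν = 5 * s * Real.sqrt (5 * s) * ℓ ^ 3 / (27 * P) := ⟨_, rfl⟩
  obtain ⟨T, hT⟩ : ∃ T, T = Ct * ℓ ^ 3 / (P * Real.sqrt (KL * s)) := ⟨_, rfl⟩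
  obtain ⟨η, hη⟩ : ∃ η, η = c * (ρ * Real.sqrt ρ) * N := ⟨_, rfl⟩
  have hη0 : 0 ≤ η := by rw [hη]; positivity
  have hWp := Wr_pot hvm hv he hℓ
  have hcong : ∀ φ : Cfg N → ℂ, potE (fun y => ENNReal.ofReal (Wr v ℓ y)) φ =
      potE (perPot v ℓ) φ := fun φ => (potE_congr (perPot_ae hvm hv hℓ) φ).symm
  have hsN : s = N * I := by rw [hs, hI, hNℓ]; field_simp
  have hL4 : 4 * s ≤ KL * s := by nlinarith
  have hWI : ∫ y, Wr v ℓ y = I := by rw [Wr_int_one hvm hv h0 hℓ, hI, hV0]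
  have hQl : ∀ K, k ≤ K → ∀ B0, Sym B0 → ∀ c, g ≤ Qf (fun y => min (Wr v ℓ y) K) q (5 * s) B0 c := by
    have := hQ_lemma hvm hv h0 he hk1 hA hA0 hτ hℓ1 hℓk (μ := 5 * s) (by positivity)
    rw [hg, hgs, hq]
    exact this
  have hnr : ∀ n, q * sq n ≤ 5 * s → 8 * ∫ y, Wr v ℓ y * (1 - cs n y) ≤ g := by
    intro n hn
    rw [hg]
    exact near_g hvm hv h0 hτ hne hnear hρ0 hs hℓ hq n hn
  have hcore := core hN1 hWp (Wr_meas hvm ℓ) hq0 hWI hI0 hsN hL4 hg0 hQl hnr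
    (tail_T htail hq0 (by nlinarith) hP0 hℓ hqP hT) (count_nu hs0 hq0 h4q hP0 hℓ hqP hν)
    hη0 hψ hψ1 (by
      intro φ hφ hφ1
      rw [hcong ψ, hcong φ, hη]
      exact hmin φ hφ hφ1)
  have hsc := final_scalar hNℓ hρ hℓ hne hP0 hKL0 hs hI hCt hν hT hb1 hKb
  rw [← hg] at hsc
  obtain ⟨O, hO⟩ : ∃ O, O = (occE ψ (fun n => n ≠ 0 ∧ q * sq n ≤ KL * s)).toReal := ⟨_, rfl⟩
  rw [← hO] at hcore ⊢
  obtain ⟨b2, hb2⟩ : ∃ b2, b2 = b1 * Real.sqrt V0 / 2 := ⟨_, rfl⟩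
  rw [← hb2] at hN4 hc1 hc2 hsc
  have hb20 : 0 < b2 := by rw [hb2]; positivity
  have hs4 : s ≤ N * (ρ * Real.sqrt ρ) * b2 / 4 := by
    rw [div_le_iff₀ (by positivity)] at hN4
    rw [hs]
    have := mul_le_mul_of_nonneg_left hN4 hρ.le
    linarith
  have hη4 : η ≤ N * (ρ * Real.sqrt ρ) * b2 / 4 := by
    rw [hη]
    have h1 : 0 ≤ (ρ * Real.sqrt ρ) * N := by positivity
    have := mul_le_mul_of_nonneg_right hc1 h1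
    linarith
  have hmain : N * (ρ * Real.sqrt ρ) * b2 / 2 ≤ 7 * s * O := by linarith
  have h2 : c * Real.sqrt ρ * N ≤ b2 / (14 * V0) * Real.sqrt ρ * N := by gcongr
  refine h2.trans ?_
  have h3 : b2 / (14 * V0) * Real.sqrt ρ * N = (N * (ρ * Real.sqrt ρ) * b2 / 2) / (7 * s) := by
    rw [hs]; field_simp; ring
  rw [h3, div_le_iff₀ (by positivity)]
  linarith

theorem depletion (m : ℝ) (hm : 0 < m) (v : (Fin 3 → ℝ) → ℝ) (hvm : Measurable v)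
    (hv : Integrable v) (h0 : ∀ x, 0 ≤ v x) (he : ∀ x, v (-x) = v x) (hne : 0 < ∫ x, v x) :
    ∃ c C ρ₀ : ℝ, 0 < c ∧ 0 < C ∧ 0 < ρ₀ ∧ ∀ ρ : ℝ, 0 < ρ → ρ < ρ₀ → ∃ N₀ : ℕ,
      ∀ N : ℕ, N₀ ≤ N → ∀ ℓ : ℝ, 0 < ℓ → (N : ℝ) = ρ * ℓ ^ 3 →
      ∀ ψ : Cfg N → ℂ, MemLp ψ 2 → ∫ x, ‖ψ x‖ ^ 2 = 1 →
      (∀ φ : Cfg N → ℂ, MemLp φ 2 → ∫ x, ‖φ x‖ ^ 2 = 1 →
        energy m v ℓ ψ ≤ energy m v ℓ φ + ENNReal.ofReal (c * (ρ * Real.sqrt ρ) * N)) →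
      ENNReal.ofReal (c * Real.sqrt ρ * N) ≤
          occE ψ (fun n => n ≠ 0 ∧ (2 * Real.pi / ℓ) ^ 2 * sq n ≤ C * ρ) ∧
        occE ψ (fun n => n = 0) ≤ ENNReal.ofReal (N - c * Real.sqrt ρ * N) := by
  obtain ⟨k, hk1, hA0⟩ := exists_trunc hvm hv h0 hne
  obtain ⟨A, hA⟩ : ∃ A, A = ∫ x, vt v k x := ⟨_, rfl⟩
  rw [← hA] at hA0
  obtain ⟨τ, hτd⟩ : ∃ τ, τ = 1 / (2 * m) := ⟨_, rfl⟩
  have hτ : 0 < τ := by rw [hτd]; positivity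
  obtain ⟨V0, hV0⟩ : ∃ V0, V0 = ∫ x, v x := ⟨_, rfl⟩
  rw [← hV0] at hne
  obtain ⟨gs, hgs⟩ : ∃ gs, gs = A ^ 2 / (A + (7 * A ^ 2 + k * A) / τ) := ⟨_, rfl⟩
  have hk0 : 0 < k := by linarith
  have hgs0 : 0 < gs := by rw [hgs]; positivity
  obtain ⟨δ, hδ, hnear⟩ := near_cos hvm hv (ε := gs / 8) (by positivity)
  obtain ⟨Ct, hCt, htail⟩ := tail_sum
  obtain ⟨P, hP⟩ : ∃ P, P = τ * Real.sqrt τ * (2 * Real.pi) ^ 3 := ⟨_, rfl⟩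
  have hPi : 0 < Real.pi := Real.pi_pos
  have hsτ : 0 < Real.sqrt τ := Real.sqrt_pos.2 hτ
  have hP0 : 0 < P := by rw [hP]; positivity
  obtain ⟨b1, hb1⟩ : ∃ b1, b1 = Real.sqrt 5 * gs ^ 2 / (8640 * P) := ⟨_, rfl⟩
  have hb10 : 0 < b1 := by
    have : 0 < Real.sqrt 5 := Real.sqrt_pos.2 (by norm_num)
    rw [hb1]; positivity
  obtain ⟨KL, hKLd⟩ : ∃ KL, KL = max 4 ((8 * V0 ^ 2 * Ct / (P * (2.6 * b1))) ^ 2) := ⟨_, rfl⟩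
  have hKL4 : 4 ≤ KL := by rw [hKLd]; exact le_max_left _ _
  have hKL0 : 0 < KL := by linarith
  have hKLs : 8 * V0 ^ 2 * Ct / (P * (2.6 * b1)) ≤ Real.sqrt KL := by
    apply Real.le_sqrt_of_sq_le; rw [hKLd]; exact le_max_right _ _
  have hsKL : 0 < Real.sqrt KL := Real.sqrt_pos.2 hKL0
  have hKb : 8 * V0 ^ 2 * Ct / (P * Real.sqrt KL) ≤ 2.6 * b1 := by
    rw [div_le_iff₀ (by positivity)] at hKLs ⊢
    calc 8 * V0 ^ 2 * Ct ≤ Real.sqrt KL * (P * (2.6 * b1)) := hKLs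
      _ = 2.6 * b1 * (P * Real.sqrt KL) := by ring
  have hsV : 0 < Real.sqrt V0 := Real.sqrt_pos.2 hne
  obtain ⟨b2, hb2⟩ : ∃ b2, b2 = b1 * Real.sqrt V0 / 2 := ⟨_, rfl⟩
  have hb20 : 0 < b2 := by rw [hb2]; positivity
  obtain ⟨c, hc⟩ : ∃ c, c = min (b2 / 4) (b2 / (14 * V0)) := ⟨_, rfl⟩
  have hc0 : 0 < c := by rw [hc]; exact lt_min (by positivity) (by positivity)
  have hc1 : c ≤ b2 / 4 := by rw [hc]; exact min_le_left _ _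
  have hc2 : c ≤ b2 / (14 * V0) := by rw [hc]; exact min_le_right _ _
  refine ⟨c, KL * V0 / τ, τ * δ / (5 * V0), hc0, by positivity, by positivity, ?_⟩
  intro ρ hρ hρ0
  have hsρ : 0 < Real.sqrt ρ := Real.sqrt_pos.2 hρ
  obtain ⟨S0, hS0⟩ : ∃ S0, S0 = Real.sqrt (16 * Real.pi ^ 2 * τ / (5 * (ρ * V0))) := ⟨_, rfl⟩
  have hS0n : 0 ≤ S0 := by rw [hS0]; exact Real.sqrt_nonneg _
  obtain ⟨N0, hN0⟩ := exists_nat_ge (max (ρ * (2 * k + 1 + S0) ^ 3) (4 * V0 / (b2 * Real.sqrt ρ)))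
  refine ⟨N0 + 1, fun N hN ℓ hℓ hNℓ ψ hψ hψ1 hmin => ?_⟩
  have hNr : (N0 : ℝ) ≤ N := by exact_mod_cast (by omega : N0 ≤ N)
  have hN1 : 1 ≤ N := by omega
  have hℓℓ0 : 2 * k + 1 + S0 ≤ ℓ := by
    by_contra h
    push Not at h
    have h1 : ρ * (2 * k + 1 + S0) ^ 3 ≤ ρ * ℓ ^ 3 := by
      rw [← hNℓ]; exact (le_max_left _ _).trans (hN0.trans hNr)
    have h2 : ℓ ^ 3 < (2 * k + 1 + S0) ^ 3 := pow_lt_pow_left₀ h hℓ.le (by norm_num)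
    have h3 := mul_lt_mul_of_pos_left h2 hρ
    linarith
  have hℓk : 2 * k < ℓ := by linarith
  have hℓ1 : 1 ≤ ℓ := by linarith
  have hℓs : 16 * Real.pi ^ 2 * τ / (5 * (ρ * V0)) ≤ ℓ ^ 2 := by
    have h1 : Real.sqrt (16 * Real.pi ^ 2 * τ / (5 * (ρ * V0))) ≤ ℓ := by
      rw [← hS0]; linarith
    exact (Real.sqrt_le_left hℓ.le).1 h1
  have hone := one_torus hvm hv h0 he hV0 hne hk1 hA hA0 hτ hgs hgs0 hnear hCt htail hP hb1 hKL4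
    hKb hc0 (hb2 ▸ hc1) (hb2 ▸ hc2) hρ hρ0 hN1 hℓ hNℓ
    (hb2 ▸ ((le_max_right _ _).trans (hN0.trans hNr))) hℓ1 hℓk hℓs
    (q := 1 / (2 * m) * (2 * Real.pi / ℓ) ^ 2) (by rw [hτd]) hψ hψ1 hmin
  have hE1 : ENNReal.ofReal (c * Real.sqrt ρ * N) ≤
      occE ψ (fun n => n ≠ 0 ∧ (2 * Real.pi / ℓ) ^ 2 * sq n ≤ KL * V0 / τ * ρ) := by
    refine (ENNReal.ofReal_le_of_le_toReal hone).trans (le_of_eq (occE_congr _ _ _ (fun n => ?_)))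
    refine and_congr_right (fun _ => ?_)
    rw [← hτd]
    have h1 : KL * V0 / τ * ρ = KL * (ρ * V0) / τ := by ring
    rw [h1, le_div_iff₀ hτ]
    constructor <;> intro h <;> linarith
  exact ⟨hE1, occE_compl hψ hψ1 _ (by simp) hE1⟩

end

end Pool.Agent.H751R2.LHY
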